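import Pool.Agent.H884Z.OP.Sob

open MeasureTheory Filter Topology Metric
open scoped ENNReal InnerProductSpace MatrixOrder

namespace H884Z.OP

lemma weak_hilbert {H : Type*} [NormedAddCommGroup H] [InnerProductSpace ℝ H] [CompleteSpace H]
    [TopologicalSpace.SeparableSpace H] (x : ℕ → H) {C : ℝ} (hx : ∀ n, ‖x n‖ ≤ C) :
    ∃ (y : H) (φ : ℕ → ℕ), StrictMono φ ∧
      ∀ h, Tendsto (fun n => ⟪x (φ n), h⟫_ℝ) atTop (𝓝 ⟪y, h⟫_ℝ) := by
  have hc := WeakDual.isSeqCompact_closedBall ℝ H 0 C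
  obtain ⟨a, -, φ, hφ, lim⟩ := hc (x := fun n =>
    StrongDual.toWeakDual (InnerProductSpace.toDual ℝ H (x n))) (fun n => by simpa using hx n)
  refine ⟨(InnerProductSpace.toDual ℝ H).symm (WeakDual.toStrongDual a), φ, hφ, fun h => ?_⟩
  have := ((WeakDual.eval_continuous h).tendsto a).comp lim
  rw [InnerProductSpace.toDual_symm_apply]
  exact this

variable {d : ℕ}

lemma weak_fun {F : Type*} [NormedAddCommGroup F] [InnerProductSpace ℝ F] [CompleteSpace F]
    [TopologicalSpace.SeparableSpace F] (f : ℕ → E d → F) (hf : ∀ n, MemLp (f n) 2 volume)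
    {C : ℝ} (hb : ∀ n, ∫ x, ‖f n x‖ ^ 2 ≤ C) :
    ∃ (g : E d → F) (φ : ℕ → ℕ), MemLp g 2 volume ∧ StrictMono φ ∧
      ∀ h, MemLp h 2 volume →
        Tendsto (fun n => ∫ x, ⟪f (φ n) x, h x⟫_ℝ) atTop (𝓝 (∫ x, ⟪g x, h x⟫_ℝ)) := by
  have : Fact ((2 : ℝ≥0∞) ≠ ⊤) := ⟨by simp⟩
  have key : ∀ (a b : E d → F) (ha : MemLp a 2 volume) (hb : MemLp b 2 volume),
      ⟪ha.toLp a, hb.toLp b⟫_ℝ = ∫ x, ⟪a x, b x⟫_ℝ := by
    intro a b ha hb
    rw [L2.inner_def]
    refine integral_congr_ae ?_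
    filter_upwards [ha.coeFn_toLp, hb.coeFn_toLp] with x h1 h2
    rw [h1, h2]
  obtain ⟨y, φ, hφ, lim⟩ := weak_hilbert (fun n => (hf n).toLp (f n)) (C := C + 1) (fun n => by
    have e := key _ _ (hf n) (hf n)
    simp only [real_inner_self_eq_norm_sq] at e
    have := hb n
    nlinarith [norm_nonneg ((hf n).toLp (f n)), sq_nonneg (‖(hf n).toLp (f n)‖ - 1)])
  refine ⟨y, φ, Lp.memLp y, hφ, fun h hh => ?_⟩
  have := lim (hh.toLp h)
  simp only [key] at this
  rw [← key _ _ (Lp.memLp y) hh, Lp.toLp_coeFn]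
  exact this

lemma common_subseq {ι : Type*} [Fintype ι] (P : ι → (ℕ → ℕ) → Prop)
    (h1 : ∀ i (φ : ℕ → ℕ), StrictMono φ → ∃ ψ : ℕ → ℕ, StrictMono ψ ∧ P i (φ ∘ ψ))
    (h2 : ∀ i (φ ψ : ℕ → ℕ), StrictMono ψ → P i φ → P i (φ ∘ ψ)) :
    ∃ φ : ℕ → ℕ, StrictMono φ ∧ ∀ i, P i φ := by
  classical
  have : ∀ s : Finset ι, ∃ φ : ℕ → ℕ, StrictMono φ ∧ ∀ i ∈ s, P i φ := by
    intro s
    induction s using Finset.induction_on with
    | empty => exact ⟨id, strictMono_id, by simp⟩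
    | insert a s ha ih =>
      obtain ⟨φ, hφ, hs⟩ := ih
      obtain ⟨ψ, hψ, ha'⟩ := h1 a φ hφ
      refine ⟨φ ∘ ψ, hφ.comp hψ, fun i hi => ?_⟩
      rcases Finset.mem_insert.1 hi with rfl | hi
      · exact ha'
      · exact h2 i φ ψ hψ (hs i hi)
  obtain ⟨φ, hφ, hs⟩ := this Finset.univ
  exact ⟨φ, hφ, fun i => hs i (Finset.mem_univ i)⟩

lemma weak_fam {F : Type*} [NormedAddCommGroup F] [InnerProductSpace ℝ F] [CompleteSpace F]
    [TopologicalSpace.SeparableSpace F] {ι : Type*} [Fintype ι] (f : ι → ℕ → E d → F)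
    (hf : ∀ i n, MemLp (f i n) 2 volume) {C : ℝ} (hb : ∀ i n, ∫ x, ‖f i n x‖ ^ 2 ≤ C) :
    ∃ (g : ι → E d → F) (φ : ℕ → ℕ), (∀ i, MemLp (g i) 2 volume) ∧ StrictMono φ ∧
      ∀ i h, MemLp h 2 volume →
        Tendsto (fun n => ∫ x, ⟪f i (φ n) x, h x⟫_ℝ) atTop (𝓝 (∫ x, ⟪g i x, h x⟫_ℝ)) := by
  obtain ⟨φ, hφ, hP⟩ := common_subseq (fun i φ => ∃ g : E d → F, MemLp g 2 volume ∧
      ∀ h, MemLp h 2 volume →
        Tendsto (fun n => ∫ x, ⟪f i (φ n) x, h x⟫_ℝ) atTop (𝓝 (∫ x, ⟪g x, h x⟫_ℝ)))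
    (fun i φ _ => by
      obtain ⟨g, ψ, hg, hψ, lim⟩ := weak_fun (fun n => f i (φ n)) (fun n => hf i _)
        (fun n => hb i _)
      exact ⟨ψ, hψ, g, hg, lim⟩)
    (fun i φ ψ hψ ⟨g, hg, lim⟩ => ⟨g, hg, fun h hh => (lim h hh).comp hψ.tendsto_atTop⟩)
  choose g hg lim using hP
  exact ⟨g, φ, hg, hφ, lim⟩

/-- the quadratic form of a matrix -/
def qf {k : ℕ} (M : Fin k → Fin k → ℝ) (c : Fin k → ℝ) : ℝ := ∑ a, ∑ b, c a * c b * M a b

lemma qf_abs_le {k : ℕ} (M : Fin k → Fin k → ℝ) (c : Fin k → ℝ) :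
    |qf M c| ≤ k * ‖M‖ * ∑ a, c a ^ 2 := by
  have h : ∀ a b, |c a * c b * M a b| ≤ ‖M‖ * ((c a ^ 2 + c b ^ 2) / 2) := by
    intro a b
    have h1 : |M a b| ≤ ‖M‖ := (norm_le_pi_norm (M a) b).trans (norm_le_pi_norm M a)
    rw [abs_mul, mul_comm]
    refine mul_le_mul h1 ?_ (abs_nonneg _) (norm_nonneg _)
    rw [abs_mul]
    nlinarith [sq_nonneg (|c a| - |c b|), sq_abs (c a), sq_abs (c b)]
  calc |qf M c| ≤ ∑ a, ∑ b, ‖M‖ * ((c a ^ 2 + c b ^ 2) / 2) := by
        refine (Finset.abs_sum_le_sum_abs _ _).trans (Finset.sum_le_sum fun a _ => ?_)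
        exact (Finset.abs_sum_le_sum_abs _ _).trans (Finset.sum_le_sum fun b _ => h a b)
    _ = _ := by
        simp only [← Finset.mul_sum, ← Finset.sum_div, Finset.sum_add_distrib, Finset.sum_const,
          Finset.card_univ, Fintype.card_fin, nsmul_eq_mul]
        ring

lemma qf_add {k : ℕ} (M N : Fin k → Fin k → ℝ) (c : Fin k → ℝ) :
    qf (M + N) c = qf M c + qf N c := by
  simp [qf, mul_add, Finset.sum_add_distrib]

lemma qf_smul {k : ℕ} (t : ℝ) (M : Fin k → Fin k → ℝ) (c : Fin k → ℝ) :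
    qf (t • M) c = t * qf M c := by
  simp only [qf, Pi.smul_apply, smul_eq_mul, Finset.mul_sum]
  refine Finset.sum_congr rfl fun a _ => Finset.sum_congr rfl fun b _ => by ring

lemma qf_one {k : ℕ} (c : Fin k → ℝ) :
    qf (fun a b => if a = b then (1 : ℝ) else 0) c = ∑ a, c a ^ 2 := by
  simp [qf, sq]

lemma sep {k : ℕ} (hk : 0 < k) (S : Set ((Fin k → ℝ) → ℝ)) (h0 : (fun _ => 0) ∈ S)
    (hadd : ∀ q ∈ S, ∀ q' ∈ S, (fun c => q c + q' c) ∈ S)
    (hsmul : ∀ t : ℝ, ∀ q ∈ S, (fun c => t * q c) ∈ S)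
    (hquad : ∀ q ∈ S, ∃ M, ∀ c, q c = qf M c)
    (hneg : ∀ q ∈ S, ∀ δ : ℝ, 0 < δ → ¬ ∀ c, q c ≤ -δ * ∑ a, c a ^ 2) :
    ∃ X : Fin k → Fin k → ℝ, 0 < ∑ j, ∑ a, X j a ^ 2 ∧ ∀ q ∈ S, ∑ j, q (X j) = 0 := by
  classical
  set s : Set (Fin k → Fin k → ℝ) := {M | ∃ δ : ℝ, 0 < δ ∧ ∀ c, qf M c ≤ -δ * ∑ a, c a ^ 2}
  set t : Set (Fin k → Fin k → ℝ) := {M | ∃ q ∈ S, ∀ c, q c = qf M c}
  have sq0 : ∀ c : Fin k → ℝ, 0 ≤ ∑ a, c a ^ 2 := fun c => by positivity
  have hs1 : Convex ℝ s := by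
    rintro M ⟨δ, hδ, hM⟩ N ⟨ε, hε, hN⟩ a b ha hb hab
    refine ⟨min δ ε, lt_min hδ hε, fun c => ?_⟩
    rw [qf_add, qf_smul, qf_smul]
    have h1 := mul_le_mul_of_nonneg_right (min_le_left δ ε) (sq0 c)
    have h2 := mul_le_mul_of_nonneg_right (min_le_right δ ε) (sq0 c)
    have h3 := mul_le_mul_of_nonneg_left ((hM c).trans (show _ ≤ -(min δ ε) * ∑ a, c a ^ 2 by
      linarith)) ha
    have h4 := mul_le_mul_of_nonneg_left ((hN c).trans (show _ ≤ -(min δ ε) * ∑ a, c a ^ 2 by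
      linarith)) hb
    have h5 : a * (-(min δ ε) * ∑ a, c a ^ 2) + b * (-(min δ ε) * ∑ a, c a ^ 2)
      = -(min δ ε) * ∑ a, c a ^ 2 := by rw [← add_mul, hab, one_mul]
    linarith
  have hs2 : IsOpen s := by
    rw [Metric.isOpen_iff]
    rintro M ⟨δ, hδ, hM⟩
    refine ⟨δ / (2 * k), by positivity, fun N hN => ⟨δ / 2, by positivity, fun c => ?_⟩⟩
    have e : N = M + (N - M) := by abel
    rw [e, qf_add]
    have h1 := (le_abs_self _).trans (qf_abs_le (N - M) c)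
    have h2 : ‖N - M‖ < δ / (2 * k) := by simpa [dist_eq_norm] using hN
    have hk' : (0 : ℝ) < k := by exact_mod_cast hk
    rw [lt_div_iff₀ (by positivity)] at h2
    have h3 := mul_le_mul_of_nonneg_right (show k * ‖N - M‖ ≤ δ / 2 by linarith) (sq0 c)
    have := hM c
    linarith
  have tadd : ∀ M ∈ t, ∀ N ∈ t, M + N ∈ t := by
    rintro M ⟨q, hq, e⟩ N ⟨q', hq', e'⟩
    exact ⟨_, hadd q hq q' hq', fun c => by rw [qf_add, ← e, ← e']⟩
  have tsmul : ∀ a : ℝ, ∀ M ∈ t, a • M ∈ t := by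
    rintro a M ⟨q, hq, e⟩
    exact ⟨_, hsmul a q hq, fun c => by rw [qf_smul, ← e]⟩
  have ht : Convex ℝ t := fun M hM N hN a b _ _ _ => tadd _ (tsmul a M hM) _ (tsmul b N hN)
  have disj : Disjoint s t := by
    rw [Set.disjoint_left]
    rintro M ⟨δ, hδ, hM⟩ ⟨q, hq, e⟩
    exact hneg q hq δ hδ fun c => by rw [e]; exact hM c
  obtain ⟨f, u, hf1, hf2⟩ := geometric_hahn_banach_open hs1 hs2 ht disj
  have t0 : (0 : Fin k → Fin k → ℝ) ∈ t := ⟨_, h0, fun c => by simp [qf]⟩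
  have u0 : u ≤ 0 := by simpa using hf2 0 t0
  have f0 : ∀ M ∈ t, f M = 0 := by
    intro M hM
    by_contra hne
    have := hf2 _ (tsmul ((u - 1) / f M) M hM)
    rw [map_smul, smul_eq_mul, div_mul_cancel₀ _ hne] at this
    linarith
  set A : Matrix (Fin k) (Fin k) ℝ := fun a b => f (Pi.single a (Pi.single b 1)) with hA
  have fM : ∀ M : Fin k → Fin k → ℝ, f M = ∑ a, ∑ b, M a b * A a b := by
    intro M
    have e : M = ∑ a, ∑ b, M a b • (Pi.single a (Pi.single b 1) : Fin k → Fin k → ℝ) := by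
      ext a b
      simp [Finset.sum_apply, Pi.single_apply, ite_apply]
    conv_lhs => rw [e]
    simp [hA]
  have hsym : ∀ a b, A a b = A b a := by
    intro a b
    have : (Pi.single a (Pi.single b 1) - Pi.single b (Pi.single a 1) : Fin k → Fin k → ℝ) ∈ t := by
      refine ⟨_, h0, fun c => ?_⟩
      simp [qf, Pi.single_apply, ite_apply, mul_sub, Finset.sum_sub_distrib, mul_comm]
    have h2 := f0 _ this
    rw [map_sub] at h2
    simp only [hA]; linarith
  set I : Fin k → Fin k → ℝ := fun a b => if a = b then 1 else 0 with hI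
  have hpos : ∀ (x : Fin k → ℝ) (ε : ℝ), 0 < ε →
      -(f (fun a b => x a * x b)) - ε * f I < 0 := by
    intro x ε hε
    have : ((-1 : ℝ) • (fun a b => x a * x b) + (-ε) • I) ∈ s := by
      refine ⟨ε, hε, fun c => ?_⟩
      rw [qf_add, qf_smul, qf_smul, hI, qf_one]
      have : qf (fun a b => x a * x b) c = (∑ a, c a * x a) ^ 2 := by
        rw [sq, Finset.sum_mul_sum]
        refine Finset.sum_congr rfl fun a _ => Finset.sum_congr rfl fun b _ => by ring
      rw [this]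
      nlinarith [sq_nonneg (∑ a, c a * x a)]
    have h2 := hf1 _ this
    rw [map_add, map_smul, map_smul, smul_eq_mul, smul_eq_mul] at h2
    linarith
  have hI0 : 0 < f I := by
    have := hpos 0 1 one_pos
    have e : (fun a b => (0 : Fin k → ℝ) a * (0 : Fin k → ℝ) b) = (0 : Fin k → Fin k → ℝ) := by
      ext a b; simp
    rw [e, map_zero] at this
    linarith
  have hpsd : A.PosSemidef := by
    rw [Matrix.posSemidef_iff_dotProduct_mulVec]
    refine ⟨?_, fun x => ?_⟩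
    · ext a b
      simp [Matrix.conjTranspose_apply, hsym a b]
    · have e : star x ⬝ᵥ A.mulVec x = f (fun a b => x a * x b) := by
        rw [fM]
        simp only [dotProduct, Matrix.mulVec, star_trivial, Finset.mul_sum]
        refine Finset.sum_congr rfl fun a _ => Finset.sum_congr rfl fun b _ => by ring
      rw [e]
      by_contra hlt
      push Not at hlt
      have := hpos x (-(f (fun a b => x a * x b)) / f I) (div_pos (by linarith) hI0)
      rw [div_mul_cancel₀ _ hI0.ne'] at this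
      linarith
  obtain ⟨B, hB⟩ := CStarAlgebra.nonneg_iff_eq_star_mul_self.mp hpsd.nonneg
  have hAB : ∀ a b, A a b = ∑ j, B j a * B j b := by
    intro a b
    rw [hB]
    simp [Matrix.mul_apply, Matrix.star_apply]
  have hq : ∀ M : Fin k → Fin k → ℝ, ∑ j, qf M (B j) = f M := by
    intro M
    rw [fM]
    simp only [qf, hAB, Finset.mul_sum]
    rw [Finset.sum_comm]
    refine Finset.sum_congr rfl fun a _ => ?_
    rw [Finset.sum_comm]
    refine Finset.sum_congr rfl fun b _ => Finset.sum_congr rfl fun j _ => by ring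
  refine ⟨fun j => B j, ?_, fun q hqS => ?_⟩
  · have := hq I
    simp only [hI, qf_one] at this
    rw [this]; exact hI0
  · obtain ⟨M, hM⟩ := hquad q hqS
    simp only [hM]
    rw [hq]
    exact f0 M ⟨q, hqS, hM⟩

lemma orth {k : ℕ} (A : Fin k → Fin k → ℝ) (hsym : ∀ a b, A a b = A b a)
    (hpos : ∀ c, c ≠ 0 → 0 < qf A c) :
    ∃ T : Fin k → Fin k → ℝ, ∀ c : Fin k → ℝ,
      qf A (fun i => ∑ j, c j * T j i) = ∑ a, c a ^ 2 := by
  classical
  set A' : Matrix (Fin k) (Fin k) ℝ := A with hA'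
  have hpsd : A'.PosSemidef := by
    rw [Matrix.posSemidef_iff_dotProduct_mulVec]
    refine ⟨?_, fun x => ?_⟩
    · ext a b
      simp [Matrix.conjTranspose_apply, hsym a b]
    · have e : star x ⬝ᵥ A'.mulVec x = qf A x := by
        simp only [dotProduct, Matrix.mulVec, star_trivial, Finset.mul_sum, qf, hA']
        refine Finset.sum_congr rfl fun a _ => Finset.sum_congr rfl fun b _ => by ring
      rw [e]
      by_cases hx : x = 0
      · simp [hx, qf]
      · exact (hpos x hx).le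
  obtain ⟨B, hB⟩ := CStarAlgebra.nonneg_iff_eq_star_mul_self.mp hpsd.nonneg
  have hAB : ∀ a b, A a b = ∑ j, B j a * B j b := by
    intro a b
    have : A' a b = _ := congrFun (congrFun hB a) b
    simpa [Matrix.mul_apply, Matrix.star_apply] using this
  have hq : ∀ c, qf A c = ∑ j, (B.mulVec c j) ^ 2 := by
    intro c
    simp only [qf, hAB, Finset.mul_sum, Matrix.mulVec, dotProduct, sq, Finset.sum_mul]
    rw [Finset.sum_comm]
    conv_rhs => rw [Finset.sum_comm]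
    refine Finset.sum_congr rfl fun a _ => ?_
    rw [Finset.sum_comm]
    refine Finset.sum_congr rfl fun b _ => Finset.sum_congr rfl fun j _ => by ring
  have hinj : Function.Injective B.mulVecLin := by
    rw [injective_iff_map_eq_zero]
    intro c hc
    by_contra hne
    have := hpos c hne
    rw [hq] at this
    simp only [Matrix.mulVecLin_apply] at hc
    simp [hc] at this
  have hsurj := LinearMap.injective_iff_surjective.1 hinj
  choose T hT using fun j => hsurj (Pi.single j 1)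
  refine ⟨T, fun c => ?_⟩
  have e : (fun i => ∑ j, c j * T j i) = ∑ j, c j • T j := by
    ext i; simp [Finset.sum_apply]
  have e2 : B.mulVec (∑ j, c j • T j) = c := by
    have := map_sum B.mulVecLin (fun j => c j • T j) Finset.univ
    simp only [map_smul, hT] at this
    rw [Matrix.mulVecLin_apply] at this
    rw [this]
    ext i; simp [Finset.sum_apply, Pi.single_apply]
  rw [hq, e, e2]

lemma iter {En : ℝ → ℝ} (h0 : ∀ R, 0 ≤ En R) (hanti : Antitone En)
    (hlim : Tendsto En atTop (𝓝 0)) {C : ℝ} (hC : 0 < C) (d : ℕ)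
    (hstep : ∀ R h r : ℝ, 0 < h → h ≤ 1 → 0 < r →
      En (R + 2 * h) ≤ C * (r ^ 2 / h ^ 4 * En R + En R ^ 2 / (r ^ d * h ^ 2))) :
    ∃ R, En R = 0 := by
  set β : ℝ := (1 / 2) ^ (2 * d + 2) with hβ
  have β0 : 0 < β := by positivity
  have β1 : β < 1 := pow_lt_one₀ (by norm_num) (by norm_num) (by omega)
  set ε : ℝ := min 1 (β / (2 * C)) with hε
  have ε0 : 0 < ε := by positivity
  have hε1 : C * ε ^ 2 ≤ β / 2 := by
    have a1 : ε ≤ 1 := min_le_left _ _
    have a2 : ε ≤ β / (2 * C) := min_le_right _ _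
    rw [le_div_iff₀ (by positivity)] at a2
    nlinarith [mul_le_mul_of_nonneg_left a1 (mul_pos hC ε0).le]
  set η : ℝ := β * ε ^ d / (2 * C) with hη
  have η0 : 0 < η := by positivity
  obtain ⟨R0, hR0⟩ := ((tendsto_order.1 hlim).2 η η0).exists
  have key : ∀ n : ℕ, En (R0 + 4 - 4 * (1 / 2) ^ n) ≤ η * β ^ n := by
    intro n
    induction n with
    | zero => simpa using hR0.le
    | succ n ih =>
      set h : ℝ := (1 / 2) ^ n with hh
      have h0' : 0 < h := by positivity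
      have h1 : h ≤ 1 := pow_le_one₀ (by norm_num) (by norm_num)
      have := hstep (R0 + 4 - 4 * h) h (ε * h ^ 2) h0' h1 (by positivity)
      have e1 : R0 + 4 - 4 * (1 / 2 : ℝ) ^ (n + 1) = R0 + 4 - 4 * h + 2 * h := by
        rw [pow_succ, ← hh]; ring
      rw [e1]
      refine this.trans ?_
      set e := En (R0 + 4 - 4 * h) with he
      have e0 : 0 ≤ e := h0 _
      have hb : β ^ n = h ^ (2 * d + 2) := by
        rw [hβ, hh, ← pow_mul, ← pow_mul, mul_comm]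
      have e2 : (ε * h ^ 2) ^ 2 / h ^ 4 = ε ^ 2 := by field_simp
      have e3 : (ε * h ^ 2) ^ d * h ^ 2 = ε ^ d * β ^ n := by
        rw [hb, mul_pow, ← pow_mul, pow_add]; ring
      rw [e2, e3]
      have e4 : C * (e ^ 2 / (ε ^ d * β ^ n)) ≤ β / 2 * e := by
        have : e / (ε ^ d * β ^ n) ≤ β / (2 * C) := by
          rw [div_le_iff₀ (by positivity)]
          refine ih.trans (le_of_eq ?_)
          rw [hη]; field_simp
        calc C * (e ^ 2 / (ε ^ d * β ^ n)) = C * e * (e / (ε ^ d * β ^ n)) := by ring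
          _ ≤ C * e * (β / (2 * C)) := by gcongr
          _ = β / 2 * e := by field_simp
      have e5 : C * (ε ^ 2 * e) ≤ β / 2 * e := by
        rw [← mul_assoc]; gcongr
      calc C * (ε ^ 2 * e + e ^ 2 / (ε ^ d * β ^ n)) ≤ β * e := by rw [mul_add]; linarith
        _ ≤ β * (η * β ^ n) := by gcongr
        _ = η * β ^ (n + 1) := by ring
  refine ⟨R0 + 4, le_antisymm ?_ (h0 _)⟩
  have lim : Tendsto (fun n : ℕ => η * β ^ n) atTop (𝓝 (η * 0)) :=
    (tendsto_pow_atTop_nhds_zero_of_lt_one β0.le β1).const_mul η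
  rw [mul_zero] at lim
  refine ge_of_tendsto' lim fun n => (hanti ?_).trans (key n)
  have : (0 : ℝ) < (1 / 2) ^ n := by positivity
  linarith

end H884Z.OP
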