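import Pool.Agent.H884Z.OP.Lam

open MeasureTheory Filter Topology Metric
open scoped ENNReal InnerProductSpace

namespace H884Z.OP

variable {d k : ℕ}

/-- real-valued negative power of the potential -/
noncomputable def Wr (p : ℝ) (V : E d → ℝ≥0∞) (x : E d) : ℝ := (V x ^ (-p)).toReal

lemma Wr_nonneg (p : ℝ) (V : E d → ℝ≥0∞) (x : E d) : 0 ≤ Wr p V x := ENNReal.toReal_nonneg

lemma Wr_int {p : ℝ} {V : E d → ℝ≥0∞} (h : Adm p V) : Integrable (Wr p V) volume :=
  integrable_toReal_of_lintegral_ne_top (h.1.pow_const _)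
    (ne_top_of_le_ne_top ENNReal.one_ne_top h.2)

lemma V_ne_zero {p : ℝ} (hp : 0 < p) {V : E d → ℝ≥0∞} (h : Adm p V) : ∀ᵐ x, V x ≠ 0 := by
  filter_upwards [ae_lt_top' (h.1.pow_const (-p))
    (ne_top_of_le_ne_top ENNReal.one_ne_top h.2)] with x hx h0
  rw [h0, ENNReal.zero_rpow_of_neg (by linarith)] at hx
  exact lt_irrefl _ hx

lemma dom_of {p : ℝ} (hp : 0 < p) (hp1 : p ≤ 1) {V : E d → ℝ≥0∞} (h : Adm p V) {g : E d → ℝ}
    (van : ∀ᵐ x, V x = ⊤ → g x = 0) : Dom (fun x => (V x).toReal) (Wr p V) g := by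
  filter_upwards [van, V_ne_zero hp h] with x hx h0 δ hδ
  by_cases ht : V x = ⊤
  · rw [hx ht]
    have := Wr_nonneg p V x
    simp only [abs_zero]
    positivity
  · have v0 : 0 < (V x).toReal := ENNReal.toReal_pos h0 ht
    have e : Wr p V x = (V x).toReal ^ (-p) := by rw [Wr, ENNReal.toReal_rpow]
    set v := (V x).toReal
    have h1 : 1 / (1 + v) ≤ Wr p V x := by
      rw [e]
      rcases le_total v 1 with hv | hv
      · have := Real.one_le_rpow_of_pos_of_le_one_of_nonpos v0 hv (show -p ≤ 0 by linarith)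
        refine le_trans ?_ this
        rw [div_le_one (by linarith)]; linarith
      · have := Real.rpow_le_rpow_of_exponent_le hv (show -1 ≤ -p by linarith)
        refine le_trans ?_ this
        rw [Real.rpow_neg_one, ← one_div]
        exact one_div_le_one_div_of_le v0 (by linarith)
    have h2 : 1 / (1 + v) / δ ≤ Wr p V x / δ := by gcongr
    refine le_trans ?_ (add_le_add le_rfl h2)
    have ha : 0 < δ * (1 + v) := by positivity
    have e2 : δ * (g x ^ 2 + v * g x ^ 2) + 1 / (1 + v) / δ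
        = ((δ * (1 + v) * |g x|) ^ 2 + 1) / (δ * (1 + v)) := by
      rw [mul_pow, sq_abs]; field_simp
    rw [e2, le_div_iff₀ ha]
    nlinarith [sq_nonneg (δ * (1 + v) * |g x| - 1), mul_nonneg ha.le (abs_nonneg (g x))]

lemma mono_lim {Vr f : E d → ℝ} (hV : Measurable Vr) (h0 : ∀ x, 0 ≤ Vr x) (hf : MemLp f 2 volume)
    {K : ℝ} (hK : ∀ m : ℕ, ∫ x, min (Vr x) m * f x ^ 2 ≤ K) :
    Integrable (fun x => Vr x * f x ^ 2) volume ∧ ∫ x, Vr x * f x ^ 2 ≤ K := by
  have mm : ∀ m : ℕ, AEStronglyMeasurable (fun x => min (Vr x) m) volume := fun m =>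
    (hV.min measurable_const).aestronglyMeasurable
  have m0 : ∀ (m : ℕ) x, 0 ≤ min (Vr x) m := fun m x => le_min (h0 x) (Nat.cast_nonneg m)
  have im : ∀ m : ℕ, Integrable (fun x => min (Vr x) m * f x ^ 2) volume := fun m =>
    (int_sq hf).bdd_mul (c := m) (mm m) (Eventually.of_forall fun x => by
      rw [Real.norm_of_nonneg (m0 m x)]; exact min_le_right _ _)
  have lim := lintegral_tendsto_of_tendsto_of_monotone (μ := volume)
    (f := fun (m : ℕ) x => ENNReal.ofReal (min (Vr x) m * f x ^ 2))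
    (F := fun x => ENNReal.ofReal (Vr x * f x ^ 2))
    (fun m => (im m).aemeasurable.ennreal_ofReal)
    (Eventually.of_forall fun x a b hab => ENNReal.ofReal_le_ofReal
      (mul_le_mul_of_nonneg_right (min_le_min le_rfl (by exact_mod_cast hab)) (sq_nonneg _)))
    (Eventually.of_forall fun x => by
      refine tendsto_const_nhds.congr' ?_
      filter_upwards [eventually_ge_atTop ⌈Vr x⌉₊] with m hm
      rw [min_eq_left ((Nat.le_ceil _).trans (by exact_mod_cast hm))])
  have hle : ∫⁻ x, ENNReal.ofReal (Vr x * f x ^ 2) ≤ ENNReal.ofReal K := by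
    refine le_of_tendsto' lim fun m => ?_
    rw [← ofReal_integral_eq_lintegral_ofReal (im m)
      (Eventually.of_forall fun x => mul_nonneg (m0 m x) (sq_nonneg _))]
    exact ENNReal.ofReal_le_ofReal (hK m)
  have nn : 0 ≤ᵐ[volume] fun x => Vr x * f x ^ 2 :=
    Eventually.of_forall fun x => mul_nonneg (h0 x) (sq_nonneg _)
  have hi : Integrable (fun x => Vr x * f x ^ 2) volume :=
    ⟨hV.aestronglyMeasurable.mul (hf.aestronglyMeasurable.pow 2),
      (hasFiniteIntegral_iff_ofReal nn).2 (lt_of_le_of_lt hle ENNReal.ofReal_lt_top)⟩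
  refine ⟨hi, ?_⟩
  have K0 : 0 ≤ K := (integral_nonneg fun x => mul_nonneg (m0 0 x) (sq_nonneg _)).trans (hK 0)
  rw [← ofReal_integral_eq_lintegral_ofReal hi nn] at hle
  exact (ENNReal.ofReal_le_ofReal_iff K0).1 hle

lemma weak_hv {V : E d → ℝ≥0∞} (hV : Measurable V) {f : ℕ → E d → ℝ} {H : ℕ → E d → E d}
    (hn : ∀ n, HV V (f n) (H n)) {f0 : E d → ℝ} {H0 : E d → E d} (m1 : MemLp f0 2 volume)
    (m2 : MemLp H0 2 volume)
    (w1 : ∀ h, MemLp h 2 volume →
      Tendsto (fun n => ∫ x, f n x * h x) atTop (𝓝 (∫ x, f0 x * h x)))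
    (w2 : ∀ h, MemLp h 2 volume →
      Tendsto (fun n => ∫ x, ⟪H n x, h x⟫_ℝ) atTop (𝓝 (∫ x, ⟪H0 x, h x⟫_ℝ)))
    {a : ℕ → ℝ} {a0 : ℝ} (ha : Tendsto a atTop (𝓝 a0)) (hQ : ∀ n, Q V (f n) (H n) ≤ a n) :
    HV V f0 H0 ∧ Q V f0 H0 ≤ a0 := by
  have sob : Sob f0 H0 := by
    refine ⟨m1, m2, fun φ hφ hc v => ?_⟩
    have l1 := w1 _ (test_fderiv_mem hφ hc v)
    have mφ : MemLp (fun x => φ x • v) 2 volume :=
      mem_smul_bdd aestronglyMeasurable_const (fun _ => le_rfl) (test_mem hφ hc)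
    have l2 := (w2 _ mφ).neg
    simp only [real_inner_smul_right] at l2
    have e : ∀ n, ∫ x, f n x * fderiv ℝ φ x v = -∫ x, φ x * ⟪H n x, v⟫_ℝ := by
      intro n
      rw [(hn n).sob.wg φ hφ hc v]
      simp only [mul_comm]
    simp only [e] at l1
    rw [tendsto_nhds_unique l1 l2]
    simp only [mul_comm]
  have van : ∀ᵐ x, V x = ⊤ → f0 x = 0 := by
    have hA : MeasurableSet {x | V x = ⊤} := hV (measurableSet_singleton ⊤)
    have mi : MemLp ({x | V x = ⊤}.indicator f0) 2 volume := m1.indicator hA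
    have l1 := w1 _ mi
    have e : ∀ n, ∫ x, f n x * {x | V x = ⊤}.indicator f0 x = 0 := by
      intro n
      rw [← integral_zero (E d) ℝ (μ := volume)]
      refine integral_congr_ae ?_
      filter_upwards [(hn n).van] with x hx
      by_cases h : V x = ⊤
      · simp [hx h]
      · simp [h]
    simp only [e] at l1
    have l2 := tendsto_nhds_unique l1 tendsto_const_nhds
    have l3 := (integral_eq_zero_iff_of_nonneg (fun x => ?_) (int_mul m1 mi)).1 l2
    · filter_upwards [l3] with x hx h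
      simpa [h] using hx
    · by_cases h : V x = ⊤
      · simp [h, mul_self_nonneg]
      · simp [h]
  have key : ∀ m : ℕ, ∫ x, min (V x).toReal m * f0 x ^ 2 ≤ a0 - ∫ x, ‖H0 x‖ ^ 2 := by
    intro m
    have mm : AEStronglyMeasurable (fun x => min (V x).toReal m) volume :=
      (hV.ennreal_toReal.min measurable_const).aestronglyMeasurable
    have m0 : ∀ x, 0 ≤ min (V x).toReal m := fun x =>
      le_min ENNReal.toReal_nonneg (Nat.cast_nonneg m)
    have mb : ∀ x, |min (V x).toReal m| ≤ m := fun x => by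
      rw [abs_of_nonneg (m0 x)]; exact min_le_right _ _
    have mh := mem_bdd_mul mm mb m1
    have im : Integrable (fun x => min (V x).toReal m * f0 x ^ 2) volume :=
      (int_sq m1).bdd_mul (c := m) mm (Eventually.of_forall mb)
    have l1 := ((w2 _ m2).add (w1 _ mh)).const_mul 2
    have l2 := ha.const_add ((∫ x, ‖H0 x‖ ^ 2) + ∫ x, min (V x).toReal m * f0 x ^ 2)
    have hle := le_of_tendsto_of_tendsto' l1 l2 (fun n => ?_)
    · simp only [real_inner_self_eq_norm_sq] at hle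
      have e : ∫ x, f0 x * (min (V x).toReal m * f0 x) = ∫ x, min (V x).toReal m * f0 x ^ 2 := by
        congr 1; ext x; ring
      rw [e] at hle
      linarith
    · have i1 := int_inner (hn n).sob.G2 m2
      have i2 := int_mul (hn n).sob.u2 mh
      have i3 := int_nsq m2
      have i4 := int_nsq (hn n).sob.G2
      have q := hQ n
      rw [Q, ← integral_add i4 (hn n).int] at q
      refine le_trans ?_ (add_le_add le_rfl q)
      rw [← integral_add i1 i2, ← integral_const_mul, ← integral_add i3 im,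
        ← integral_add (iadd i3 im) (iadd i4 (hn n).int)]
      refine integral_mono ((iadd i1 i2).const_mul 2) (iadd (iadd i3 im) (iadd i4 (hn n).int))
        fun x => ?_
      have b1 := real_inner_le_norm (H n x) (H0 x)
      have b2 : min (V x).toReal m * f n x ^ 2 ≤ (V x).toReal * f n x ^ 2 :=
        mul_le_mul_of_nonneg_right (min_le_left _ _) (sq_nonneg _)
      have b3 := mul_nonneg (m0 x) (sq_nonneg (f n x - f0 x))
      nlinarith [sq_nonneg (‖H n x‖ - ‖H0 x‖)]
  obtain ⟨hi, hle⟩ := mono_lim hV.ennreal_toReal (fun _ => ENNReal.toReal_nonneg) m1 key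
  exact ⟨⟨sob, van, hi⟩, by rw [Q]; linarith⟩

lemma HV.sub {V : E d → ℝ≥0∞} (hV : Measurable V) {u w : E d → ℝ} {G H : E d → E d}
    (h1 : HV V u G) (h2 : HV V w H) : HV V (fun x => u x - w x) (fun x => G x - H x) := by
  refine ⟨h1.sob.sub h2.sob, ?_, ?_⟩
  · filter_upwards [h1.van, h2.van] with x a b hx
    rw [a hx, b hx, sub_zero]
  · have := isub (iadd h1.int h2.int) ((h1.cross hV h2).const_mul 2)
    refine this.congr (Eventually.of_forall fun x => ?_)
    simp only; ring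

lemma weak_norm {p : ℝ} (hp : 0 < p) (hp1 : p ≤ 1) {V : E d → ℝ≥0∞} (hV : Measurable V)
    (hA : Adm p V) {f : ℕ → E d → ℝ} {H : ℕ → E d → E d}
    (hn : ∀ n, HV V (f n) (H n)) {f0 : E d → ℝ} {H0 : E d → E d} (h0 : HV V f0 H0)
    (w1 : ∀ h, MemLp h 2 volume →
      Tendsto (fun n => ∫ x, f n x * h x) atTop (𝓝 (∫ x, f0 x * h x)))
    {C s : ℝ} (hQ : ∀ n, Q V (f n) (H n) ≤ C) (hs : ∀ n, ∫ x, f n x ^ 2 = s) :
    ∫ x, f0 x ^ 2 = s := by
  have hg := fun n => (hn n).sub hV h0
  have g0 : ∀ G : E d → E d, 0 ≤ ∫ x, ‖G x‖ ^ 2 := fun G => integral_nonneg fun _ => by positivity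
  have v0 : ∀ u : E d → ℝ, 0 ≤ ∫ x, (V x).toReal * u x ^ 2 := fun u =>
    integral_nonneg fun _ => by positivity
  have s0 : ∀ u : E d → ℝ, 0 ≤ ∫ x, u x ^ 2 := fun u => integral_nonneg fun _ => by positivity
  have C0 : 0 ≤ C := (Q_nonneg _ _ _).trans (hQ 0)
  have s1 : 0 ≤ s := hs 0 ▸ s0 _
  have lim := cpt (Wr_int hA) (Wr_nonneg p V) (fun x => ENNReal.toReal_nonneg (a := V x))
    (fun n => (hg n).sob) (C := 2 * (C + s) + 2 * (Q V f0 H0 + ∫ x, f0 x ^ 2))
    (fun n => (hg n).int) (fun n => ?_) (fun n => ?_) (fun n => ?_)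
    (fun n => dom_of hp hp1 hA (hg n).van) (fun h hh => ?_)
  · have e : ∀ n, ∫ x, (f n x - f0 x) ^ 2 = s + (∫ x, f0 x ^ 2) - 2 * ∫ x, f n x * f0 x := by
      intro n
      have i1 := int_sq (hn n).sob.u2
      have i2 := int_sq h0.sob.u2
      have i3 := int_mul (hn n).sob.u2 h0.sob.u2
      rw [← hs n, ← integral_add i1 i2, ← integral_const_mul,
        ← integral_sub (iadd i1 i2) (i3.const_mul 2)]
      congr 1; ext x; ring
    simp only [e] at lim
    have l2 := (((w1 _ h0.sob.u2).const_mul 2).const_sub (s + ∫ x, f0 x ^ 2))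
    have := tendsto_nhds_unique lim l2
    simp only [← sq] at this
    linarith
  · have i1 := int_sq (hn n).sob.u2
    have i2 := int_sq h0.sob.u2
    have : ∫ x, (f n x - f0 x) ^ 2 ≤ ∫ x, (2 * f n x ^ 2 + 2 * f0 x ^ 2) :=
      integral_mono (int_sq (hg n).sob.u2) (iadd (i1.const_mul 2) (i2.const_mul 2)) fun x => by
        nlinarith [sq_nonneg (f n x + f0 x)]
    rw [integral_add (i1.const_mul 2) (i2.const_mul 2), integral_const_mul, integral_const_mul,
      hs n] at this
    have := Q_nonneg V f0 H0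
    linarith
  · have i1 := int_nsq (hn n).sob.G2
    have i2 := int_nsq h0.sob.G2
    have : ∫ x, ‖H n x - H0 x‖ ^ 2 ≤ ∫ x, (2 * ‖H n x‖ ^ 2 + 2 * ‖H0 x‖ ^ 2) :=
      integral_mono (int_nsq (hg n).sob.G2) (iadd (i1.const_mul 2) (i2.const_mul 2)) fun x => by
        have := norm_sub_le (H n x) (H0 x)
        have h2 := pow_le_pow_left₀ (norm_nonneg _) this 2
        nlinarith [sq_nonneg (‖H n x‖ - ‖H0 x‖)]
    rw [integral_add (i1.const_mul 2) (i2.const_mul 2), integral_const_mul, integral_const_mul]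
      at this
    have q := hQ n
    have := v0 (f n); have := v0 f0; have := s0 f0
    rw [Q] at q ⊢
    linarith
  · have i1 := (hn n).int
    have i2 := h0.int
    have : ∫ x, (V x).toReal * (f n x - f0 x) ^ 2 ≤
        ∫ x, (2 * ((V x).toReal * f n x ^ 2) + 2 * ((V x).toReal * f0 x ^ 2)) :=
      integral_mono (hg n).int (iadd (i1.const_mul 2) (i2.const_mul 2)) fun x => by
        have := mul_nonneg (ENNReal.toReal_nonneg (a := V x)) (sq_nonneg (f n x + f0 x))
        nlinarith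
    rw [integral_add (i1.const_mul 2) (i2.const_mul 2), integral_const_mul, integral_const_mul]
      at this
    have q := hQ n
    have := g0 (H n); have := g0 H0; have := s0 f0
    rw [Q] at q ⊢
    linarith
  · have l := (w1 h hh).sub_const (∫ x, f0 x * h x)
    rw [sub_self] at l
    refine l.congr fun n => ?_
    rw [← integral_sub (int_mul (hn n).sob.u2 hh) (int_mul h0.sob.u2 hh)]
    congr 1; ext x; ring

lemma lc_single (u : Fin k → E d → ℝ) (i : Fin k) : lc (Pi.single i 1) u = u i := by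
  ext x; simp [lc, Pi.single_apply]

lemma lg_single (G : Fin k → E d → E d) (i : Fin k) : lg (Pi.single i 1) G = G i := by
  ext1 x; simp [lg, Pi.single_apply]

lemma sq_single (i : Fin k) : ∑ a, (Pi.single i 1 : Fin k → ℝ) a ^ 2 = 1 := by
  simp [Pi.single_apply]

lemma attain {p : ℝ} (hp : 0 < p) (hp1 : p ≤ 1) {V : E d → ℝ≥0∞} (hV : Measurable V)
    (hA : Adm p V) (hfin : lam k V ≠ ⊤) :
    ∃ (u : Fin k → E d → ℝ) (G : Fin k → E d → E d), (∀ i, HV V (u i) (G i)) ∧
      (∀ c, ∫ x, lc c u x ^ 2 = ∑ a, c a ^ 2) ∧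
      ∀ c, Q V (lc c u) (lg c G) ≤ (lam k V).toReal * ∑ a, c a ^ 2 := by
  set l := (lam k V).toReal with hl
  have l0 : 0 ≤ l := ENNReal.toReal_nonneg
  have hlt : ∀ n : ℕ, lam k V < ENNReal.ofReal (l + 1 / ((n : ℝ) + 1)) := by
    intro n
    rw [← ENNReal.ofReal_toReal hfin, ← hl]
    exact (ENNReal.ofReal_lt_ofReal_iff_of_nonneg l0).2 (lt_add_of_pos_right _ (by positivity))
  choose u G hu hN hQ using fun n => lam_lt hV (hlt n)
  have b1 : ∀ n : ℕ, 1 / ((n : ℝ) + 1) ≤ 1 := fun n => by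
    rw [div_le_one (by positivity)]; linarith [Nat.cast_nonneg (α := ℝ) n]
  obtain ⟨u0, φ, mu, hφ, wu⟩ := weak_fam (fun i n => u n i) (fun i n => (hu n i).sob.u2) (C := 1)
    (fun i n => by
      have := hN n (Pi.single i 1)
      rw [lc_single, sq_single] at this
      simp [this])
  obtain ⟨G0, ψ, mG, hψ, wG⟩ := weak_fam (fun i n => G (φ n) i) (fun i n => (hu _ i).sob.G2)
    (C := l + 1) (fun i n => by
      have := hQ (φ n) (Pi.single i 1)
      rw [lc_single, lg_single, sq_single, Q] at this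
      have h2 : 0 ≤ ∫ x, (V x).toReal * u (φ n) i x ^ 2 := integral_nonneg fun _ => by positivity
      have := b1 (φ n)
      linarith)
  have w1 : ∀ (c : Fin k → ℝ) h, MemLp h 2 volume →
      Tendsto (fun n => ∫ x, lc c (u (φ (ψ n))) x * h x) atTop (𝓝 (∫ x, lc c u0 x * h x)) := by
    intro c h hh
    have e : ∀ w : Fin k → E d → ℝ, (∀ i, MemLp (w i) 2 volume) →
        ∫ x, lc c w x * h x = ∑ i, c i * ∫ x, ⟪w i x, h x⟫_ℝ := by
      intro w hw
      simp only [← integral_const_mul]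
      rw [← integral_finsetSum _ fun i _ => (int_inner (hw i) hh).const_mul _]
      congr 1; ext x
      simp only [lc, Finset.sum_mul, RCLike.inner_apply, conj_trivial]
      exact Finset.sum_congr rfl fun i _ => by ring
    rw [e _ mu]
    simp only [e _ (fun i => (hu _ i).sob.u2)]
    exact tendsto_finsetSum _ fun i _ => ((wu i h hh).comp hψ.tendsto_atTop).const_mul _
  have w2 : ∀ (c : Fin k → ℝ) h, MemLp h 2 volume →
      Tendsto (fun n => ∫ x, ⟪lg c (G (φ (ψ n))) x, h x⟫_ℝ) atTop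
        (𝓝 (∫ x, ⟪lg c G0 x, h x⟫_ℝ)) := by
    intro c h hh
    have e : ∀ w : Fin k → E d → E d, (∀ i, MemLp (w i) 2 volume) →
        ∫ x, ⟪lg c w x, h x⟫_ℝ = ∑ i, c i * ∫ x, ⟪w i x, h x⟫_ℝ := by
      intro w hw
      simp only [← integral_const_mul]
      rw [← integral_finsetSum _ fun i _ => (int_inner (hw i) hh).const_mul _]
      congr 1; ext x
      simp only [lg, sum_inner, real_inner_smul_left]
    rw [e _ mG]
    simp only [e _ (fun i => (hu _ i).sob.G2)]
    exact tendsto_finsetSum _ fun i _ => (wG i h hh).const_mul _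
  have mu' : ∀ c : Fin k → ℝ, MemLp (lc c u0) 2 volume := fun c =>
    memLp_finsetSum _ fun i _ => (mu i).const_mul _
  have mG' : ∀ c : Fin k → ℝ, MemLp (lg c G0) 2 volume := fun c =>
    memLp_finsetSum _ fun i _ => (mG i).const_smul (c i)
  have la : ∀ c : Fin k → ℝ, Tendsto (fun n => (l + 1 / ((φ (ψ n) : ℝ) + 1)) * ∑ a, c a ^ 2) atTop
      (𝓝 (l * ∑ a, c a ^ 2)) := by
    intro c
    have := ((tendsto_one_div_add_atTop_nhds_zero_nat (𝕜 := ℝ)).comp
      (hφ.comp hψ).tendsto_atTop).const_add l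
    rw [add_zero] at this
    exact this.mul_const _
  have main := fun c : Fin k → ℝ => weak_hv hV (fun n => HV.lc hV (hu (φ (ψ n))) c) (mu' c) (mG' c)
    (w1 c) (w2 c) (la c) (fun n => hQ _ c)
  refine ⟨u0, G0, fun i => ?_, fun c => ?_, fun c => (main c).2⟩
  · have := (main (Pi.single i 1)).1
    rwa [lc_single, lg_single] at this
  · refine weak_norm hp hp1 hV hA (fun n => HV.lc hV (hu (φ (ψ n))) c) (main c).1 (w1 c)
      (C := (l + 1) * ∑ a, c a ^ 2) (fun n => (hQ _ c).trans ?_) (fun n => hN _ c)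
    have := b1 (φ (ψ n))
    gcongr

end H884Z.OP
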