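import Mathlib

open MeasureTheory
open scoped ENNReal InnerProductSpace

namespace H884Z.OP

/-- Euclidean space of dimension `d`. -/
abbrev E (d : ℕ) := EuclideanSpace ℝ (Fin d)

/-- `G` is a weak gradient of `u`: integration by parts against smooth compactly supported
test functions, in every direction `v`. -/
def IsWeakGrad {d : ℕ} (u : E d → ℝ) (G : E d → E d) : Prop :=
  ∀ φ : E d → ℝ, ContDiff ℝ ((⊤ : ℕ∞) : WithTop ℕ∞) φ → HasCompactSupport φ → ∀ v : E d,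
    (∫ x, u x * fderiv ℝ φ x v) = - ∫ x, ⟪G x, v⟫_ℝ * φ x

/-- `u` lies in the space `H¹_V`, with weak gradient `G`. -/
def InH1V {d : ℕ} (V : E d → ℝ≥0∞) (u : E d → ℝ) (G : E d → E d) : Prop :=
  MemLp u 2 volume ∧ MemLp G 2 volume ∧ IsWeakGrad u G ∧ (∫⁻ x, V x * ‖u x‖ₑ ^ 2) < ⊤

/-- The Rayleigh quotient of the form `∫ |∇u|² + ∫ V u²`. -/
noncomputable def rayleigh {d : ℕ} (V : E d → ℝ≥0∞) (u : E d → ℝ) (G : E d → E d) : ℝ≥0∞ :=
  ((∫⁻ x, ‖G x‖ₑ ^ 2) + (∫⁻ x, V x * ‖u x‖ₑ ^ 2)) / (∫⁻ x, ‖u x‖ₑ ^ 2)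

/-- The `k`-th min-max value: infimum over `k`-dimensional subspaces of `H¹_V` (given by a basis
`u`, independent modulo null sets) of the supremum of the Rayleigh quotient. -/
noncomputable def lam {d : ℕ} (k : ℕ) (V : E d → ℝ≥0∞) : ℝ≥0∞ :=
  ⨅ (u : Fin k → E d → ℝ) (G : Fin k → E d → E d) (_ : ∀ i, InH1V V (u i) (G i))
    (_ : ∀ c : Fin k → ℝ, (fun x => ∑ i, c i * u i x) =ᵐ[volume] 0 → c = 0),
    ⨆ (c : Fin k → ℝ) (_ : c ≠ 0),
      rayleigh V (fun x => ∑ i, c i * u i x) (fun x => ∑ i, c i • G i x)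

/-- The admissible class: Lebesgue measurable `V` with `∫ V^(-p) ≤ 1`. -/
def Adm {d : ℕ} (p : ℝ) (V : E d → ℝ≥0∞) : Prop :=
  AEMeasurable V volume ∧ (∫⁻ x, V x ^ (-p)) ≤ 1

/-- `V` minimises the `k`-th min-max value in the admissible class. -/
def Optimal {d : ℕ} (p : ℝ) (k : ℕ) (V : E d → ℝ≥0∞) : Prop :=
  Adm p V ∧ ∀ V' : E d → ℝ≥0∞, Adm p V' → lam k V ≤ lam k V'

end H884Z.OP
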