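import Pool.Agent.H884Z.OP.Nash
import Pool.Agent.H884Z.OP.Abs

open MeasureTheory Filter Topology Metric
open scoped ENNReal InnerProductSpace

namespace H884Z.OP

variable {d k : ℕ}

structure HV (V : E d → ℝ≥0∞) (u : E d → ℝ) (G : E d → E d) : Prop where
  sob : Sob u G
  van : ∀ᵐ x, V x = ⊤ → u x = 0
  int : Integrable (fun x => (V x).toReal * u x ^ 2) volume

/-- the real-valued quadratic form -/
noncomputable def Q (V : E d → ℝ≥0∞) (u : E d → ℝ) (G : E d → E d) : ℝ :=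
  (∫ x, ‖G x‖ ^ 2) + ∫ x, (V x).toReal * u x ^ 2

def lc (c : Fin k → ℝ) (u : Fin k → E d → ℝ) (x : E d) : ℝ := ∑ i, c i * u i x

noncomputable def lg (c : Fin k → ℝ) (G : Fin k → E d → E d) (x : E d) : E d := ∑ i, c i • G i x

lemma enorm_sq {F : Type*} [NormedAddCommGroup F] (a : F) :
    ‖a‖ₑ ^ 2 = ENNReal.ofReal (‖a‖ ^ 2) := by
  rw [← ofReal_norm, ENNReal.ofReal_pow (norm_nonneg _)]

lemma pt_eq {V : E d → ℝ≥0∞} {u : E d → ℝ} (van : ∀ᵐ x, V x = ⊤ → u x = 0) :
    ∀ᵐ x, V x * ‖u x‖ₑ ^ 2 = ENNReal.ofReal ((V x).toReal * u x ^ 2) := by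
  filter_upwards [van] with x hx
  by_cases h : V x = ⊤
  · simp [hx h]
  · rw [enorm_sq, ENNReal.ofReal_mul ENNReal.toReal_nonneg, ENNReal.ofReal_toReal h]
    simp

lemma HV.lint {V : E d → ℝ≥0∞} {u : E d → ℝ} {G : E d → E d} (h : HV V u G) :
    ∫⁻ x, V x * ‖u x‖ₑ ^ 2 = ENNReal.ofReal (∫ x, (V x).toReal * u x ^ 2) := by
  rw [lintegral_congr_ae (pt_eq h.van), ofReal_integral_eq_lintegral_ofReal h.int
    (Eventually.of_forall fun x => by positivity)]

lemma lint_nsq {F : Type*} [NormedAddCommGroup F] {G : E d → F} (h : MemLp G 2 volume) :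
    ∫⁻ x, ‖G x‖ₑ ^ 2 = ENNReal.ofReal (∫ x, ‖G x‖ ^ 2) := by
  rw [ofReal_integral_eq_lintegral_ofReal (int_nsq h)
    (Eventually.of_forall fun x => by positivity)]
  simp only [enorm_sq]

lemma HV.inH {V : E d → ℝ≥0∞} {u : E d → ℝ} {G : E d → E d} (h : HV V u G) : InH1V V u G :=
  ⟨h.sob.u2, h.sob.G2, h.sob.wg, by rw [h.lint]; exact ENNReal.ofReal_lt_top⟩

lemma aesm_V {V : E d → ℝ≥0∞} (hV : Measurable V) :
    AEStronglyMeasurable (fun x => (V x).toReal) volume :=
  hV.ennreal_toReal.aestronglyMeasurable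

lemma HV.of_inH {V : E d → ℝ≥0∞} (hV : Measurable V) {u : E d → ℝ} {G : E d → E d}
    (h : InH1V V u G) : HV V u G := by
  obtain ⟨h1, h2, h3, h4⟩ := h
  have m : AEMeasurable (fun x => V x * ‖u x‖ₑ ^ 2) volume :=
    hV.aemeasurable.mul (h1.aestronglyMeasurable.enorm.pow_const 2)
  have van : ∀ᵐ x, V x = ⊤ → u x = 0 := by
    filter_upwards [ae_lt_top' m h4.ne] with x hx hx'
    by_contra hne
    rw [hx', ENNReal.top_mul (by simpa using hne)] at hx
    exact lt_irrefl _ hx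
  refine ⟨⟨h1, h2, h3⟩, van, (aesm_V hV).mul (h1.aestronglyMeasurable.pow 2), ?_⟩
  rw [hasFiniteIntegral_iff_ofReal (Eventually.of_forall fun x => by positivity),
    ← lintegral_congr_ae (pt_eq van)]
  exact h4

lemma HV.cross {V : E d → ℝ≥0∞} (hV : Measurable V) {u w : E d → ℝ} {G H : E d → E d}
    (h1 : HV V u G) (h2 : HV V w H) :
    Integrable (fun x => (V x).toReal * (u x * w x)) volume := by
  refine Integrable.mono' (iadd h1.int h2.int) ((aesm_V hV).mul
    (h1.sob.u2.aestronglyMeasurable.mul h2.sob.u2.aestronglyMeasurable))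
    (Eventually.of_forall fun x => ?_)
  rw [norm_mul, Real.norm_of_nonneg ENNReal.toReal_nonneg, ← mul_add, norm_mul,
    Real.norm_eq_abs, Real.norm_eq_abs]
  refine mul_le_mul_of_nonneg_left ?_ ENNReal.toReal_nonneg
  nlinarith [sq_nonneg (|u x| - |w x|), sq_abs (u x), sq_abs (w x),
    mul_nonneg (abs_nonneg (u x)) (abs_nonneg (w x))]

lemma int_dsum (c : Fin k → ℝ) {F : Fin k → Fin k → E d → ℝ}
    (hF : ∀ a b, Integrable (F a b) volume) :
    Integrable (fun x => ∑ a, ∑ b, c a * c b * F a b x) volume :=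
  integrable_finsetSum _ fun a _ => integrable_finsetSum _ fun b _ => (hF a b).const_mul _

lemma qf_int (c : Fin k → ℝ) {F : Fin k → Fin k → E d → ℝ}
    (hF : ∀ a b, Integrable (F a b) volume) :
    ∫ x, ∑ a, ∑ b, c a * c b * F a b x = qf (fun a b => ∫ x, F a b x) c := by
  rw [integral_finsetSum _ fun a _ => integrable_finsetSum _ fun b _ => (hF a b).const_mul _]
  refine Finset.sum_congr rfl fun a _ => ?_
  rw [integral_finsetSum _ fun b _ => (hF a b).const_mul _]
  refine Finset.sum_congr rfl fun b _ => integral_const_mul _ _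

lemma lc_sq (c : Fin k → ℝ) (u : Fin k → E d → ℝ) (θ : ℝ) (x : E d) :
    θ * lc c u x ^ 2 = ∑ a, ∑ b, c a * c b * (θ * (u a x * u b x)) := by
  rw [lc, sq, Finset.sum_mul_sum, Finset.mul_sum]
  refine Finset.sum_congr rfl fun a _ => ?_
  rw [Finset.mul_sum]
  exact Finset.sum_congr rfl fun b _ => by ring

lemma lg_sq (c : Fin k → ℝ) (G : Fin k → E d → E d) (θ : ℝ) (x : E d) :
    θ * ‖lg c G x‖ ^ 2 = ∑ a, ∑ b, c a * c b * (θ * ⟪G a x, G b x⟫_ℝ) := by
  rw [← real_inner_self_eq_norm_sq, lg, sum_inner, Finset.mul_sum]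
  refine Finset.sum_congr rfl fun a _ => ?_
  rw [inner_sum, Finset.mul_sum]
  refine Finset.sum_congr rfl fun b _ => ?_
  rw [real_inner_smul_left, real_inner_smul_right]; ring

lemma Sob.lc {u : Fin k → E d → ℝ} {G : Fin k → E d → E d} (h : ∀ i, Sob (u i) (G i))
    (c : Fin k → ℝ) : Sob (lc c u) (lg c G) := Sob.sum Finset.univ h c

lemma HV.lc {V : E d → ℝ≥0∞} (hV : Measurable V) {u : Fin k → E d → ℝ} {G : Fin k → E d → E d}
    (h : ∀ i, HV V (u i) (G i)) (c : Fin k → ℝ) : HV V (lc c u) (lg c G) := by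
  refine ⟨Sob.lc (fun i => (h i).sob) c, ?_, ?_⟩
  · filter_upwards [ae_all_iff.2 fun i => (h i).van] with x hx hx'
    simp [H884Z.OP.lc, fun i => hx i hx']
  · simp only [lc_sq]
    exact int_dsum c fun a b => (h a).cross hV (h b)

lemma Q_nonneg (V : E d → ℝ≥0∞) (u : E d → ℝ) (G : E d → E d) : 0 ≤ Q V u G :=
  add_nonneg (integral_nonneg fun _ => by positivity) (integral_nonneg fun _ => by positivity)

lemma HV.ray {V : E d → ℝ≥0∞} {u : E d → ℝ} {G : E d → E d} (h : HV V u G) :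
    rayleigh V u G = ENNReal.ofReal (Q V u G) / ENNReal.ofReal (∫ x, u x ^ 2) := by
  rw [rayleigh, h.lint, lint_nsq h.sob.G2, lint_nsq h.sob.u2, Q,
    ENNReal.ofReal_add (integral_nonneg fun _ => by positivity)
      (integral_nonneg fun _ => by positivity)]
  simp

lemma lam_le {V : E d → ℝ≥0∞} (hV : Measurable V) {u : Fin k → E d → ℝ} {G : Fin k → E d → E d}
    (h : ∀ i, HV V (u i) (G i)) (hpos : ∀ c, c ≠ 0 → 0 < ∫ x, lc c u x ^ 2) {μ : ℝ}
    (hQ : ∀ c, Q V (lc c u) (lg c G) ≤ μ * ∫ x, lc c u x ^ 2) :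
    lam k V ≤ ENNReal.ofReal μ := by
  unfold lam
  refine iInf_le_of_le u (iInf_le_of_le G (iInf_le_of_le (fun i => (h i).inH)
    (iInf_le_of_le (fun c hc => ?_) (iSup₂_le fun c hc => ?_))))
  · by_contra hne
    have := hpos c hne
    rw [integral_congr_ae (g := fun _ => 0)] at this
    · simp at this
    · filter_upwards [hc] with x hx
      have : lc c u x = 0 := hx
      simp [this]
  · have := (HV.lc hV h c).ray
    change rayleigh V (lc c u) (lg c G) ≤ _
    rw [this, ← ENNReal.ofReal_div_of_pos (hpos c hc)]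
    exact ENNReal.ofReal_le_ofReal ((div_le_iff₀ (hpos c hc)).2 (hQ c))

lemma gram {u : Fin k → E d → ℝ} (h : ∀ i, MemLp (u i) 2 volume) (c : Fin k → ℝ) :
    ∫ x, lc c u x ^ 2 = qf (fun a b => ∫ x, u a x * u b x) c := by
  rw [← qf_int c (fun a b => int_mul (h a) (h b))]
  congr 1; ext x
  simpa using lc_sq c u 1 x

lemma lc_lc (c : Fin k → ℝ) (T : Fin k → Fin k → ℝ) (u : Fin k → E d → ℝ) :
    lc c (fun j => lc (T j) u) = lc (fun i => ∑ j, c j * T j i) u := by
  ext x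
  simp only [lc, Finset.mul_sum, Finset.sum_mul]
  rw [Finset.sum_comm]
  exact Finset.sum_congr rfl fun a _ => Finset.sum_congr rfl fun b _ => by ring

lemma lg_lg (c : Fin k → ℝ) (T : Fin k → Fin k → ℝ) (G : Fin k → E d → E d) :
    lg c (fun j => lg (T j) G) = lg (fun i => ∑ j, c j * T j i) G := by
  ext1 x
  simp only [lg, Finset.smul_sum, Finset.sum_smul, smul_smul]
  rw [Finset.sum_comm]

lemma orth_fun {u : Fin k → E d → ℝ} (h : ∀ i, MemLp (u i) 2 volume)
    (hpos : ∀ c, c ≠ 0 → 0 < ∫ x, lc c u x ^ 2) :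
    ∃ T : Fin k → Fin k → ℝ, ∀ c, ∫ x, lc c (fun j => lc (T j) u) x ^ 2 = ∑ a, c a ^ 2 := by
  obtain ⟨T, hT⟩ := orth (fun a b => ∫ x, u a x * u b x) (fun a b => by simp only [mul_comm])
    (fun c hc => by rw [← gram h]; exact hpos c hc)
  exact ⟨T, fun c => by rw [lc_lc, gram h, hT]⟩

lemma pos_of_indep {u : Fin k → E d → ℝ} {G : Fin k → E d → E d} (h : ∀ i, Sob (u i) (G i))
    (hind : ∀ c : Fin k → ℝ, (fun x => ∑ i, c i * u i x) =ᵐ[volume] 0 → c = 0) :
    ∀ c, c ≠ 0 → 0 < ∫ x, lc c u x ^ 2 := by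
  intro c hc
  refine lt_of_le_of_ne (integral_nonneg fun _ => sq_nonneg _) fun h0 => hc (hind c ?_)
  have := (integral_eq_zero_iff_of_nonneg (fun _ => sq_nonneg _)
    (int_sq (Sob.lc h c).u2)).1 h0.symm
  filter_upwards [this] with x hx
  exact pow_eq_zero_iff (two_ne_zero) |>.1 hx

lemma lam_lt {V : E d → ℝ≥0∞} (hV : Measurable V) {μ : ℝ} (hl : lam k V < ENNReal.ofReal μ) :
    ∃ (u : Fin k → E d → ℝ) (G : Fin k → E d → E d), (∀ i, HV V (u i) (G i)) ∧
      (∀ c, ∫ x, lc c u x ^ 2 = ∑ a, c a ^ 2) ∧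
      ∀ c, Q V (lc c u) (lg c G) ≤ μ * ∑ a, c a ^ 2 := by
  unfold lam at hl
  simp only [iInf_lt_iff] at hl
  obtain ⟨u, G, hu, hind, hl⟩ := hl
  have h : ∀ i, HV V (u i) (G i) := fun i => HV.of_inH hV (hu i)
  have hpos := pos_of_indep (fun i => (h i).sob) hind
  have hQ : ∀ c, Q V (lc c u) (lg c G) ≤ μ * ∫ x, lc c u x ^ 2 := by
    intro c
    by_cases hc : c = 0
    · simp [hc, Q, lc, lg]
    · have h1 : rayleigh V (lc c u) (lg c G) < ENNReal.ofReal μ :=
        lt_of_le_of_lt (le_iSup₂_of_le (f := fun (c : Fin k → ℝ) (_ : c ≠ 0) =>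
          rayleigh V (fun x => ∑ i, c i * u i x) (fun x => ∑ i, c i • G i x)) c hc le_rfl) hl
      rw [(HV.lc hV h c).ray, ← ENNReal.ofReal_div_of_pos (hpos c hc),
        ENNReal.ofReal_lt_ofReal_iff_of_nonneg (div_nonneg (Q_nonneg _ _ _) (hpos c hc).le),
        div_lt_iff₀ (hpos c hc)] at h1
      exact h1.le
  obtain ⟨T, hT⟩ := orth_fun (fun i => (h i).sob.u2) hpos
  refine ⟨fun j => lc (T j) u, fun j => lg (T j) G, fun j => HV.lc hV h _, hT, fun c => ?_⟩
  rw [← hT c, lc_lc, lg_lg]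
  exact hQ _

lemma Q_qf {V : E d → ℝ≥0∞} (hV : Measurable V) {u : Fin k → E d → ℝ} {G : Fin k → E d → E d}
    (h : ∀ i, HV V (u i) (G i)) : ∃ M, ∀ c, Q V (lc c u) (lg c G) = qf M c := by
  refine ⟨(fun a b => ∫ x, ⟪G a x, G b x⟫_ℝ) + fun a b => ∫ x, (V x).toReal * (u a x * u b x),
    fun c => ?_⟩
  rw [qf_add, ← qf_int c (fun a b => int_inner (h a).sob.G2 (h b).sob.G2),
    ← qf_int c (fun a b => (h a).cross hV (h b)), Q]
  congr 1
  · congr 1; ext x; simpa using lg_sq c G 1 x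
  · congr 1; ext x; exact lc_sq c u _ x

lemma sumsq_pos {c : Fin k → ℝ} (hc : c ≠ 0) : 0 < ∑ a, c a ^ 2 := by
  obtain ⟨a, ha⟩ := Function.ne_iff.1 hc
  exact Finset.sum_pos' (fun _ _ => sq_nonneg _) ⟨a, Finset.mem_univ _, by
    have : c a ≠ 0 := ha
    positivity⟩

lemma lam_fin {V : E d → ℝ≥0∞} (hV : Measurable V) {u : Fin k → E d → ℝ} {G : Fin k → E d → E d}
    (h : ∀ i, HV V (u i) (G i)) (hpos : ∀ c, c ≠ 0 → 0 < ∫ x, lc c u x ^ 2) :
    lam k V < ⊤ := by
  obtain ⟨T, hT⟩ := orth_fun (fun i => (h i).sob.u2) hpos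
  have h' : ∀ j, HV V (lc (T j) u) (lg (T j) G) := fun j => HV.lc hV h _
  obtain ⟨M, hM⟩ := Q_qf hV h'
  refine lt_of_le_of_lt (lam_le hV h' (fun c hc => by rw [hT]; exact sumsq_pos hc)
    (μ := k * ‖M‖) fun c => ?_) ENNReal.ofReal_lt_top
  rw [hT, hM]
  exact (le_abs_self _).trans (qf_abs_le M c)

lemma competitor (hd : 0 < d) {p : ℝ} (hp : 0 < p) (k : ℕ) :
    ∃ V : E d → ℝ≥0∞, Adm p V ∧ lam k V < ⊤ := by
  classical
  set e : E d := EuclideanSpace.single ⟨0, hd⟩ 1 with he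
  have he1 : ‖e‖ = 1 := by simp [he]
  set b : (i : Fin k) → ContDiffBump (((i : ℕ) : ℝ) • e) := fun i =>
    ⟨1 / 2, 1, by norm_num, by norm_num⟩ with hb
  set m : ℝ := vb d (k + 2) with hm
  have m0 : 0 < m := vb_pos (by positivity)
  set V : E d → ℝ≥0∞ := fun x => if x ∈ ball (0 : E d) (k + 2) then
    ENNReal.ofReal (m ^ (1 / p)) else ⊤ with hVdef
  have hV : Measurable V := Measurable.ite measurableSet_ball measurable_const measurable_const
  have hbs : ∀ i, Sm (b i) := fun i => (b i).contDiff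
  refine ⟨V, ⟨hV.aemeasurable, ?_⟩, lam_fin hV (u := fun i => b i) (G := fun i => gradient (b i))
    (fun i => ⟨Sob.of_test (hbs i) (b i).hasCompactSupport, ?_, ?_⟩) ?_⟩
  · have : ∀ x, V x ^ (-p) = (ball (0 : E d) (k + 2)).indicator
        (fun _ => ENNReal.ofReal m⁻¹) x := by
      intro x
      by_cases hx : x ∈ ball (0 : E d) (k + 2)
      · simp only [hVdef, hx, if_true, Set.indicator_of_mem]
        rw [ENNReal.ofReal_rpow_of_pos (by positivity), ← Real.rpow_mul m0.le]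
        congr 1
        rw [show 1 / p * -p = -1 by field_simp, Real.rpow_neg_one]
      · simp only [hVdef, hx, if_false, Set.indicator_of_notMem, not_false_eq_true]
        exact ENNReal.top_rpow_of_neg (by linarith)
    simp only [this]
    rw [lintegral_indicator_const measurableSet_ball,
      ← ENNReal.ofReal_toReal (measure_ball_lt_top (x := (0 : E d)) (r := k + 2)).ne,
      ← ENNReal.ofReal_mul (by positivity)]
    have : (volume (ball (0 : E d) (k + 2))).toReal = m := rfl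
    rw [this, inv_mul_cancel₀ m0.ne']
    simp
  · refine Eventually.of_forall fun x hx => ?_
    apply (b i).zero_of_le_dist
    have hx' : x ∉ ball (0 : E d) (k + 2) := by
      intro h
      simp only [hVdef, h, if_true] at hx
      exact ENNReal.ofReal_ne_top hx
    have h1 : (k : ℝ) + 2 ≤ ‖x‖ := by simpa using hx'
    have h2 : ‖((i : ℕ) : ℝ) • e‖ ≤ k := by
      rw [norm_smul, he1, mul_one, Real.norm_natCast]
      exact_mod_cast i.2.le
    have h3 := norm_sub_norm_le x (((i : ℕ) : ℝ) • e)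
    rw [dist_eq_norm]
    change (1 : ℝ) ≤ _
    linarith
  · refine (int_sq (test_mem (hbs i) (b i).hasCompactSupport)).bdd_mul (c := m ^ (1 / p))
      (aesm_V hV) (Eventually.of_forall fun x => ?_)
    rw [Real.norm_of_nonneg ENNReal.toReal_nonneg]
    by_cases hx : x ∈ ball (0 : E d) (k + 2)
    · simp only [hVdef, hx, if_true]
      rw [ENNReal.toReal_ofReal (by positivity)]
    · simp only [hVdef, hx, if_false]
      simp only [ENNReal.toReal_top]; positivity
  · refine pos_of_indep (fun i => Sob.of_test (hbs i) (b i).hasCompactSupport) fun c hc => ?_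
    have hcont : Continuous (fun x => ∑ i, c i * b i x) :=
      continuous_finsetSum _ fun i _ => continuous_const.mul (b i).continuous
    have h0 := (hcont.ae_eq_iff_eq volume continuous_zero).1 hc
    ext i
    have := congrFun h0 (((i : ℕ) : ℝ) • e)
    rw [Finset.sum_eq_single i] at this
    · rw [(b i).one_of_mem_closedBall (mem_closedBall_self (b i).rIn_pos.le)] at this
      simpa using this
    · intro j _ hj
      rw [(b j).zero_of_le_dist, mul_zero]
      rw [dist_eq_norm, ← sub_smul, norm_smul, he1, mul_one]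
      change (1 : ℝ) ≤ _
      have : ((i : ℕ) : ℤ) - ((j : ℕ) : ℤ) ≠ 0 := by
        intro h
        exact hj (Fin.ext (by omega))
      have h2 := Int.one_le_abs this
      rw [Real.norm_eq_abs]
      exact_mod_cast h2
    · simp

end H884Z.OP
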