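import Pool.Agent.H884Z.OP.Pert

open MeasureTheory Filter Topology Metric
open scoped ENNReal InnerProductSpace

namespace H884Z.OP

variable {d k : ℕ}

/-- closed half-space -/
def HS (e : E d) (R : ℝ) : Set (E d) := {x | R ≤ ⟪e, x⟫_ℝ}

lemma HS_meas (e : E d) (R : ℝ) : MeasurableSet (HS e R) :=
  (isClosed_le continuous_const (by fun_prop)).measurableSet

lemma HS_anti (e : E d) : Antitone (HS e) := fun _ _ h _ hx => le_trans h hx

lemma deriv_st_neg {y : ℝ} (hy : y < 0) : deriv Real.smoothTransition y = 0 := by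
  have : Real.smoothTransition =ᶠ[𝓝 y] fun _ => 0 := by
    filter_upwards [Iio_mem_nhds hy] with z hz using Real.smoothTransition.zero_of_nonpos (le_of_lt hz)
  rw [this.deriv_eq]; simp

lemma deriv_st_bd : ∃ M : ℝ, 1 ≤ M ∧ ∀ y, |deriv Real.smoothTransition y| ≤ M := by
  have hc : Continuous (deriv Real.smoothTransition) :=
    (Real.smoothTransition.contDiff (n := 1)).continuous_deriv (by simp)
  obtain ⟨M, hM⟩ := (isCompact_Icc (a := (0 : ℝ)) (b := 1)).exists_bound_of_continuousOn
    hc.continuousOn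
  refine ⟨max 1 M, le_max_left _ _, fun y => ?_⟩
  rcases lt_or_ge y 0 with h | h
  · rw [deriv_st_neg h, abs_zero]; positivity
  rcases le_or_gt y 1 with h' | h'
  · exact (hM y ⟨h, h'⟩).trans (le_max_right _ _)
  · have : Real.smoothTransition =ᶠ[𝓝 y] fun _ => 1 := by
      filter_upwards [Ioi_mem_nhds h'] with z hz using Real.smoothTransition.one_of_one_le (le_of_lt hz)
    rw [this.deriv_eq]; simp

lemma cutoff : ∃ M : ℝ, 1 ≤ M ∧ ∀ (e : E d), ‖e‖ = 1 → ∀ R h : ℝ, 0 < h → h ≤ 1 →
    ∃ η : E d → ℝ, Mult η (M / h) ∧ (∀ x, 0 ≤ η x ∧ η x ≤ 1) ∧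
      (∀ x, x ∉ HS e R → η x = 0 ∧ gradient η x = 0) ∧ ∀ x ∈ HS e (R + h), η x = 1 := by
  obtain ⟨M, M1, hM⟩ := deriv_st_bd
  refine ⟨M, M1, fun e he R h h0 h1 => ?_⟩
  have hs : Sm (fun x : E d => Real.smoothTransition ((⟪e, x⟫_ℝ - R) / h)) :=
    Real.smoothTransition.contDiff.comp
      (((contDiff_const.inner ℝ contDiff_id).sub contDiff_const).div_const h)
  have hg : ∀ x : E d, gradient (fun x : E d => Real.smoothTransition ((⟪e, x⟫_ℝ - R) / h)) x
      = (deriv Real.smoothTransition ((⟪e, x⟫_ℝ - R) / h) / h) • e := by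
    intro x
    have d1 : HasFDerivAt (fun x : E d => (⟪e, x⟫_ℝ - R) / h) (h⁻¹ • innerSL ℝ e) x := by
      have := (((innerSL ℝ e).hasFDerivAt (x := x)).sub_const R).mul_const h⁻¹
      simpa [div_eq_mul_inv] using this
    have d2 := ((Real.smoothTransition.contDiff (n := 1)).differentiable (by simp)
      ((⟪e, x⟫_ℝ - R) / h)).hasDerivAt.comp_hasFDerivAt x d1
    refine ext_inner_right ℝ fun v => ?_
    rw [inner_grad]
    have d3 : fderiv ℝ (fun x : E d => Real.smoothTransition ((⟪e, x⟫_ℝ - R) / h)) x = _ :=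
      d2.fderiv
    rw [d3, real_inner_smul_left]
    simp [div_eq_mul_inv, mul_assoc]
  refine ⟨_, ⟨hs, fun x => ?_, fun x => ?_⟩, fun x => ⟨Real.smoothTransition.nonneg _,
    Real.smoothTransition.le_one _⟩, fun x hx => ?_, fun x hx => ?_⟩
  · rw [abs_of_nonneg (Real.smoothTransition.nonneg _), le_div_iff₀ h0]
    have := Real.smoothTransition.le_one ((⟪e, x⟫_ℝ - R) / h)
    have := Real.smoothTransition.nonneg ((⟪e, x⟫_ℝ - R) / h)
    nlinarith
  · rw [hg, norm_smul, he, mul_one, Real.norm_eq_abs, abs_div, abs_of_pos h0]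
    gcongr
    exact hM _
  · have : (⟪e, x⟫_ℝ - R) / h < 0 := div_neg_of_neg_of_pos (by
      simp only [HS, Set.mem_ofPred_eq, not_le] at hx; linarith) h0
    exact ⟨Real.smoothTransition.zero_of_nonpos this.le, by rw [hg, deriv_st_neg this]; simp⟩
  · refine Real.smoothTransition.one_of_one_le ?_
    rw [le_div_iff₀ h0]
    have : R + h ≤ ⟪e, x⟫_ℝ := hx
    linarith

lemma grad_sq {η : E d → ℝ} (h : Sm η) (x : E d) :
    gradient (fun x => η x * η x) x = (2 * η x) • gradient η x := by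
  have dη : DifferentiableAt ℝ η x := h.differentiable (by simp) x
  refine ext_inner_right ℝ fun v => ?_
  rw [inner_grad, fderiv_fun_mul dη dη, real_inner_smul_left, inner_grad]
  simp; ring

lemma Mult.sq {η : E d → ℝ} {K : ℝ} (h : Mult η K) (h1 : ∀ x, 0 ≤ η x ∧ η x ≤ 1) :
    Mult (fun x => η x * η x) (2 * K) := by
  refine ⟨h.sm.mul h.sm, fun x => ?_, fun x => ?_⟩
  · have := h.bd x
    have := h1 x
    rw [abs_of_nonneg (h1 x).1] at *
    rw [abs_of_nonneg (mul_self_nonneg _)]
    nlinarith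
  · rw [grad_sq h.sm, norm_smul, Real.norm_of_nonneg (by linarith [(h1 x).1])]
    have := h.gbd x
    have := h1 x
    nlinarith [norm_nonneg (gradient η x)]

lemma wt_le {θ g : E d → ℝ} {A : Set (E d)} (hA : MeasurableSet A) (hg : Integrable g volume)
    (g0 : ∀ x, 0 ≤ g x) {K : ℝ} (θ0 : ∀ x, 0 ≤ θ x) (θK : ∀ x, θ x ≤ K) (θA : ∀ x, x ∉ A → θ x = 0) :
    ∫ x, θ x * g x ≤ K * ∫ x in A, g x := by
  rw [← integral_indicator hA, ← integral_const_mul]
  refine integral_mono_of_nonneg (Eventually.of_forall fun x => mul_nonneg (θ0 x) (g0 x))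
    ((hg.indicator hA).const_mul K) (Eventually.of_forall fun x => ?_)
  by_cases hx : x ∈ A
  · simp only [hx, Set.indicator_of_mem]
    exact mul_le_mul_of_nonneg_right (θK x) (g0 x)
  · simp [hx, θA x hx]

lemma le_wt {θ g : E d → ℝ} {A : Set (E d)} (hA : MeasurableSet A)
    (hi : Integrable (fun x => θ x * g x) volume)
    (g0 : ∀ x, 0 ≤ g x) (θ0 : ∀ x, 0 ≤ θ x) (θA : ∀ x ∈ A, θ x = 1) :
    ∫ x in A, g x ≤ ∫ x, θ x * g x := by
  rw [← integral_indicator hA]
  refine integral_mono_of_nonneg (Eventually.of_forall fun x => Set.indicator_nonneg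
    (fun x _ => g0 x) x) hi (Eventually.of_forall fun x => ?_)
  by_cases hx : x ∈ A
  · simp [hx, θA x hx]
  · simp only [hx, not_false_eq_true, Set.indicator_of_notMem]
    exact mul_nonneg (θ0 x) (g0 x)

lemma half (hd : 0 < d) (hk : 0 < k) {p : ℝ} (hp : 0 < p) (hp1 : p ≤ 1) {V : E d → ℝ≥0∞}
    (hV : Measurable V) (hO : Optimal p k V) (e : E d) (he : ‖e‖ = 1) :
    ∃ R, ∫ x in HS e R, Wr p V x = 0 := by
  obtain ⟨l, v, H, l0, hv, hpos, hopt⟩ := opt_cond hd hk hp hp1 hV hO
  have iW := Wr_int hO.1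
  have W0 := Wr_nonneg p V
  have sW : ∀ A : Set (E d), 0 ≤ ∫ x in A, Wr p V x := fun A => integral_nonneg fun x => W0 x
  by_cases hW : ∫ x, Wr p V x = 0
  · exact ⟨0, le_antisymm ((setIntegral_le_integral iW (Eventually.of_forall W0)).trans hW.le)
      (sW _)⟩
  have hW' : 0 < ∫ x, Wr p V x := lt_of_le_of_ne (integral_nonneg W0) (Ne.symm hW)
  set a : ℝ → ℝ := fun R => ∑ j, ∫ x in HS e R, v j x ^ 2 with ha
  set b : ℝ → ℝ := fun R => ∑ j, ∫ x in HS e R, (V x).toReal * v j x ^ 2 with hb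
  have V0 : ∀ j x, 0 ≤ (V x).toReal * v j x ^ 2 := fun j x => by positivity
  have aj0 : ∀ j (A : Set (E d)), 0 ≤ ∫ x in A, v j x ^ 2 := fun j A =>
    integral_nonneg fun x => sq_nonneg _
  have bj0 : ∀ j (A : Set (E d)), 0 ≤ ∫ x in A, (V x).toReal * v j x ^ 2 := fun j A =>
    integral_nonneg fun x => V0 j x
  have a0 : ∀ R, 0 ≤ a R := fun R => Finset.sum_nonneg fun j _ => aj0 j _
  have b0 : ∀ R, 0 ≤ b R := fun R => Finset.sum_nonneg fun j _ => bj0 j _
  have aanti : Antitone a := fun R S h => Finset.sum_le_sum fun j _ =>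
    setIntegral_mono_set (int_sq (hv j).sob.u2).integrableOn
      (Eventually.of_forall fun x => sq_nonneg _) (HS_anti e h).eventuallyLE
  have banti : Antitone b := fun R S h => Finset.sum_le_sum fun j _ =>
    setIntegral_mono_set (hv j).int.integrableOn
      (Eventually.of_forall fun x => V0 j x) (HS_anti e h).eventuallyLE
  have lim0 : ∀ g : E d → ℝ, Integrable g volume →
      Tendsto (fun R => ∫ x in HS e R, g x) atTop (𝓝 0) := by
    intro g hg
    have := tendsto_setIntegral_of_antitone (HS_meas e) (HS_anti e) ⟨0, hg.integrableOn⟩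
    have e0 : ⋂ R, HS e R = ∅ := by
      ext x
      simp only [Set.mem_iInter, HS, Set.mem_ofPred_eq, Set.mem_empty_iff_false, iff_false,
        not_forall, not_le]
      exact ⟨_, lt_add_one _⟩
    simpa [e0] using this
  have lim : Tendsto (fun R => a R + b R) atTop (𝓝 0) := by
    have l1 := tendsto_finsetSum (Finset.univ : Finset (Fin k))
      fun j _ => lim0 _ (int_sq (hv j).sob.u2)
    have l2 := tendsto_finsetSum (Finset.univ : Finset (Fin k)) fun j _ => lim0 _ (hv j).int
    simpa using l1.add l2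
  set B : ℝ := ∑ j, ∫ x, (V x).toReal * v j x ^ 2 with hB
  have B0 : 0 < B := by
    refine lt_of_le_of_ne (Finset.sum_nonneg fun j _ => integral_nonneg (V0 j)) fun h => ?_
    have h1 := (Finset.sum_eq_zero_iff_of_nonneg fun j _ => integral_nonneg (V0 j)).1 h.symm
    refine hpos.ne' (Finset.sum_eq_zero fun j hj => ?_)
    have h2 := (integral_eq_zero_iff_of_nonneg (V0 j) (hv j).int).1 (h1 j hj)
    rw [← integral_zero (E d) ℝ (μ := volume)]
    refine integral_congr_ae ?_
    filter_upwards [h2, (hv j).van, V_ne_zero hp hO.1] with x x1 x2 x3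
    by_cases ht : V x = ⊤
    · simp [x2 ht]
    · exact (mul_eq_zero.1 x1).resolve_left (ENNReal.toReal_pos x3 ht).ne'
  set c : ℝ := (∫ x, Wr p V x) / B with hc
  have c0 : 0 < c := div_pos hW' B0
  have hWb : ∀ R, ∫ x in HS e R, Wr p V x = c * b R := by
    intro R
    set τ := (∫ x in HS e R, Wr p V x) / ∫ x, Wr p V x with hτ
    have ind : ∀ g : E d → ℝ, Integrable g volume →
        ∫ x, g x * ((HS e R).indicator (fun _ => (1 : ℝ)) x - τ)
          = (∫ x in HS e R, g x) - τ * ∫ x, g x := by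
      intro g hg
      rw [← integral_indicator (HS_meas e R), ← integral_const_mul,
        ← integral_sub (hg.indicator (HS_meas e R)) (hg.const_mul τ)]
      congr 1; ext x
      by_cases hx : x ∈ HS e R
      · simp [hx]; ring
      · simp [hx]; ring
    have := hopt (fun x => (HS e R).indicator (fun _ => (1 : ℝ)) x - τ) (fun _ => 0) (1 + |τ|)
      ((measurable_const.indicator (HS_meas e R)).sub measurable_const) (fun x => by
        refine (abs_sub _ _).trans (add_le_add ?_ le_rfl)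
        by_cases hx : x ∈ HS e R <;> simp [hx])
      (by rw [ind _ iW, hτ, div_mul_cancel₀ _ hW, sub_self]) (Mult.zero (by positivity))
    have e1 : ∀ j, ∫ x, mbv p l (V x).toReal ((HS e R).indicator (fun _ => (1 : ℝ)) x - τ) 0
        (gradient (fun _ : E d => (0 : ℝ)) x) (v j x) (H j x) (v j x) (H j x)
        = -1 / p * ((∫ x in HS e R, (V x).toReal * v j x ^ 2)
          - τ * ∫ x, (V x).toReal * v j x ^ 2) := by
      intro j
      rw [← ind _ (hv j).int, ← integral_const_mul]
      congr 1; ext x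
      simp only [mbv, gradient_fun_const, inner_zero_right]
      ring
    simp only [e1] at this
    rw [← Finset.mul_sum, Finset.sum_sub_distrib, ← Finset.mul_sum] at this
    have h2 : b R - τ * B = 0 := (mul_eq_zero.1 this).resolve_left (by
      rw [neg_div]; exact neg_ne_zero.2 (by positivity))
    have h3 : b R = τ * B := by linarith
    rw [h3, hτ, hc]; field_simp
  obtain ⟨M, M1, hM⟩ := cutoff (d := d)
  set K : ℝ := l + M ^ 2 with hK
  have K0 : 0 < K := by positivity
  have v1 := vb_pos (d := d) one_pos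
  have step : ∀ R h r : ℝ, 0 < h → h ≤ 1 → 0 < r → b (R + h) ≤ K / h ^ 2 * a R ∧
      a (R + h) ≤ k * ((1 + c) * (a R + b R)) ^ 2 / vb d r + r ^ 2 / 2 * (K / h ^ 2 * a R) := by
    intro R h r h0 h1 r0
    obtain ⟨η, mη, η01, ηo, ηi⟩ := hM e he R h h0 h1
    have := hopt (fun _ => 0) (fun x => η x * η x) (2 * (M / h)) measurable_const
      (fun x => by rw [abs_zero]; positivity) (by simp) (mη.sq η01)
    have sob := fun j => (hv j).sob.mul mη
    have m1 : AEStronglyMeasurable (fun x => η x ^ 2) volume :=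
      (mη.sm.continuous.pow 2).aestronglyMeasurable
    have m2 : AEStronglyMeasurable (fun x => ‖gradient η x‖ ^ 2) volume :=
      ((cont_grad mη.sm).norm.pow 2).aestronglyMeasurable
    have η1 : ∀ x, η x ^ 2 ≤ 1 := fun x => pow_le_one₀ (η01 x).1 (η01 x).2
    have η2 : ∀ x, ‖gradient η x‖ ^ 2 ≤ (M / h) ^ 2 := fun x =>
      pow_le_pow_left₀ (norm_nonneg _) (mη.gbd x) 2
    have i1 := fun j => int_nsq (sob j).G2
    have i2 : ∀ j, Integrable (fun x => η x ^ 2 * ((V x).toReal * v j x ^ 2)) volume := fun j =>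
      (hv j).int.bdd_mul (c := 1) m1 (Eventually.of_forall fun x => by
        rw [Real.norm_of_nonneg (sq_nonneg _)]; exact η1 x)
    have i3 : ∀ j, Integrable (fun x => η x ^ 2 * v j x ^ 2) volume := fun j =>
      (int_sq (hv j).sob.u2).bdd_mul (c := 1) m1 (Eventually.of_forall fun x => by
        rw [Real.norm_of_nonneg (sq_nonneg _)]; exact η1 x)
    have i4 : ∀ j, Integrable (fun x => ‖gradient η x‖ ^ 2 * v j x ^ 2) volume := fun j =>
      (int_sq (hv j).sob.u2).bdd_mul (c := (M / h) ^ 2) m2 (Eventually.of_forall fun x => by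
        rw [Real.norm_of_nonneg (sq_nonneg _)]; exact η2 x)
    have e1 : ∀ j, ∫ x, mbv p l (V x).toReal 0 (η x * η x)
        (gradient (fun x => η x * η x) x) (v j x) (H j x) (v j x) (H j x)
        = 2 * (((∫ x, ‖η x • H j x + v j x • gradient η x‖ ^ 2)
          + ∫ x, η x ^ 2 * ((V x).toReal * v j x ^ 2))
          - (l * (∫ x, η x ^ 2 * v j x ^ 2) + ∫ x, ‖gradient η x‖ ^ 2 * v j x ^ 2)) := by
      intro j
      rw [← integral_const_mul, ← integral_add (i1 j) (i2 j),
        ← integral_add ((i3 j).const_mul l) (i4 j),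
        ← integral_sub (iadd (i1 j) (i2 j)) (iadd ((i3 j).const_mul l) (i4 j)),
        ← integral_const_mul]
      congr 1; ext x
      simp only [mbv, grad_sq mη.sm, norm_add_sq_real, real_inner_smul_left, real_inner_smul_right,
        norm_smul, mul_pow, Real.norm_eq_abs, sq_abs, real_inner_self_eq_norm_sq]
      ring
    simp only [e1] at this
    rw [← Finset.mul_sum, Finset.sum_sub_distrib] at this
    have cac : ∑ j, ((∫ x, ‖η x • H j x + v j x • gradient η x‖ ^ 2)
        + ∫ x, η x ^ 2 * ((V x).toReal * v j x ^ 2)) ≤ K / h ^ 2 * a R := by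
      have h2 : ∑ j, ((∫ x, ‖η x • H j x + v j x • gradient η x‖ ^ 2)
        + ∫ x, η x ^ 2 * ((V x).toReal * v j x ^ 2))
        = ∑ j, (l * (∫ x, η x ^ 2 * v j x ^ 2) + ∫ x, ‖gradient η x‖ ^ 2 * v j x ^ 2) := by
        linarith
      rw [h2, ha, Finset.mul_sum]
      refine Finset.sum_le_sum fun j _ => ?_
      have f1 := wt_le (HS_meas e R) (int_sq (hv j).sob.u2) (fun x => sq_nonneg _)
        (θ := fun x => η x ^ 2) (fun x => sq_nonneg _) η1 (fun x hx => by simp [(ηo x hx).1])
      have f2 := wt_le (HS_meas e R) (int_sq (hv j).sob.u2) (fun x => sq_nonneg _)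
        (θ := fun x => ‖gradient η x‖ ^ 2) (fun x => sq_nonneg _) η2
        (fun x hx => by simp [(ηo x hx).2])
      have f3 : l ≤ l / h ^ 2 := le_div_self l0 (by positivity) (pow_le_one₀ h0.le h1)
      have f4 : K / h ^ 2 = l / h ^ 2 + (M / h) ^ 2 := by rw [hK]; field_simp
      have f5 := mul_le_mul_of_nonneg_left f1 l0
      have f6 := mul_le_mul_of_nonneg_right f3 (aj0 j (HS e R))
      rw [f4]
      linarith
    rw [Finset.sum_add_distrib] at cac
    have n1 : 0 ≤ ∑ j, ∫ x, ‖η x • H j x + v j x • gradient η x‖ ^ 2 :=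
      Finset.sum_nonneg fun j _ => integral_nonneg fun x => sq_nonneg _
    have n2 : 0 ≤ ∑ j, ∫ x, η x ^ 2 * ((V x).toReal * v j x ^ 2) :=
      Finset.sum_nonneg fun j _ => integral_nonneg fun x => mul_nonneg (sq_nonneg _) (V0 j x)
    constructor
    · refine le_trans (Finset.sum_le_sum fun j _ => le_wt (HS_meas e (R + h)) (i2 j) (V0 j)
        (fun x => sq_nonneg _) (fun x hx => by simp [ηi x hx])) ?_
      linarith
    · have vr := vb_pos (d := d) r0
      have g1 : ∀ j, ∫ x in HS e (R + h), v j x ^ 2 ≤ ((1 + c) * (a R + b R)) ^ 2 / vb d r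
          + r ^ 2 / 2 * ∫ x, ‖η x • H j x + v j x • gradient η x‖ ^ 2 := by
        intro j
        have dom := dom_of hp hp1 hO.1 (hv j).van
        have iD := iadd (iadd (int_sq (hv j).sob.u2) (hv j).int) iW
        have ptw : ∀ᵐ x, |v j x| ≤ v j x ^ 2 + (V x).toReal * v j x ^ 2 + Wr p V x := by
          filter_upwards [dom] with x hx
          simpa using hx 1 one_pos
        have iv : Integrable (v j) volume :=
          Integrable.mono' iD (hv j).sob.u2.aestronglyMeasurable ptw
        have iηv : Integrable (fun x => η x * v j x) volume :=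
          iv.bdd_mul (c := M / h) mη.sm.continuous.aestronglyMeasurable
            (Eventually.of_forall mη.bd)
        have ns := nash (sob j) iηv r0
        have t1 : ∫ x in HS e (R + h), v j x ^ 2 ≤ ∫ x, (η x * v j x) ^ 2 := by
          simp only [mul_pow]
          exact le_wt (HS_meas e (R + h)) (i3 j) (fun x => sq_nonneg _) (fun x => sq_nonneg _)
            (fun x hx => by simp [ηi x hx])
        have t2 : ∫ x, |η x * v j x| ≤ (1 + c) * (a R + b R) := by
          have u1 : ∫ x, |η x * v j x| ≤ 1 * ∫ x in HS e R, |v j x| := by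
            refine le_trans (le_of_eq ?_) (wt_le (HS_meas e R) iv.abs (fun x => abs_nonneg _)
              (θ := η) (fun x => (η01 x).1) (fun x => (η01 x).2) (fun x hx => (ηo x hx).1))
            congr 1; ext x; rw [abs_mul, abs_of_nonneg (η01 x).1]
          have u2 : ∫ x in HS e R, |v j x| ≤
              ∫ x in HS e R, (v j x ^ 2 + (V x).toReal * v j x ^ 2 + Wr p V x) :=
            setIntegral_mono_ae iv.abs.integrableOn iD.integrableOn ptw
          rw [integral_add (iadd (int_sq (hv j).sob.u2) (hv j).int).integrableOn iW.integrableOn,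
            integral_add (int_sq (hv j).sob.u2).integrableOn (hv j).int.integrableOn, hWb] at u2
          have u3 : ∫ x in HS e R, v j x ^ 2 ≤ a R :=
            Finset.single_le_sum (f := fun j => ∫ x in HS e R, v j x ^ 2)
              (fun j _ => aj0 j _) (Finset.mem_univ j)
          have u4 : ∫ x in HS e R, (V x).toReal * v j x ^ 2 ≤ b R :=
            Finset.single_le_sum (f := fun j => ∫ x in HS e R, (V x).toReal * v j x ^ 2)
              (fun j _ => bj0 j _) (Finset.mem_univ j)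
          have u5 := mul_nonneg c0.le (a0 R)
          linarith
        have t3 : (∫ x, |η x * v j x|) ^ 2 ≤ ((1 + c) * (a R + b R)) ^ 2 :=
          pow_le_pow_left₀ (integral_nonneg fun x => abs_nonneg _) t2 2
        refine t1.trans ?_
        rw [div_add' _ _ _ vr.ne', le_div_iff₀ vr]
        linarith
      refine (Finset.sum_le_sum fun j _ => g1 j).trans ?_
      rw [Finset.sum_add_distrib, Finset.sum_const, Finset.card_univ, Fintype.card_fin,
        nsmul_eq_mul, ← Finset.mul_sum, mul_div_assoc]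
      gcongr
      linarith
  obtain ⟨R, hR⟩ := iter (En := fun R => a R + b R) (fun R => add_nonneg (a0 R) (b0 R))
    (aanti.add banti) lim (C := (1 + K) * (k * (1 + c) ^ 2 / vb d 1 + K)) (by positivity) d (by
      intro R h r h0 h1 r0
      have s1 := (step R h r h0 h1 r0).2
      have s2 := (step (R + h) h r h0 h1 r0).1
      have s3 : a (R + 2 * h) ≤ a (R + h) := aanti (by linarith)
      have s4 : a (R + h) ≤ 1 / h ^ 2 * a (R + h) := le_mul_of_one_le_left (a0 _) (by
        rw [le_div_iff₀ (by positivity), one_mul]; exact pow_le_one₀ h0.le h1)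
      rw [show R + h + h = R + 2 * h by ring] at s2
      have s5 : a (R + 2 * h) + b (R + 2 * h) ≤ (1 + K) / h ^ 2 * a (R + h) := by
        rw [add_div, add_mul]; linarith
      have aR := a0 R
      have bR := b0 R
      set En := a R + b R with hEn
      have En0 : 0 ≤ En := by positivity
      have s6 : a R ≤ En := by linarith
      set A1 := k * (1 + c) ^ 2 / vb d 1 with hA1
      have A10 : 0 ≤ A1 := by positivity
      calc a (R + 2 * h) + b (R + 2 * h) ≤ (1 + K) / h ^ 2 * (k * ((1 + c) * En) ^ 2 / vb d r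
            + r ^ 2 / 2 * (K / h ^ 2 * En)) := by
            refine s5.trans (mul_le_mul_of_nonneg_left (s1.trans ?_) (by positivity))
            gcongr
        _ = (1 + K) * (K / 2 * (r ^ 2 / h ^ 4 * En) + A1 * (En ^ 2 / (r ^ d * h ^ 2))) := by
            rw [vb_eq r0, hA1]; field_simp; ring
        _ ≤ (1 + K) * ((A1 + K) * (r ^ 2 / h ^ 4 * En) + (A1 + K) * (En ^ 2 / (r ^ d * h ^ 2))) := by
            gcongr <;> linarith
        _ = _ := by ring)
  refine ⟨R, ?_⟩
  have : b R = 0 := by linarith [a0 R, b0 R]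
  rw [hWb, this, mul_zero]

lemma half' (hd : 0 < d) (hk : 0 < k) {p : ℝ} (hp : 0 < p) (hp1 : p ≤ 1) {V : E d → ℝ≥0∞}
    (hV : Measurable V) (hO : Optimal p k V) (e : E d) (he : ‖e‖ = 1) :
    ∃ R, ∀ᵐ x, V x < ⊤ → ⟪e, x⟫_ℝ ≤ R := by
  obtain ⟨R, hR⟩ := half hd hk hp hp1 hV hO e he
  refine ⟨R, ?_⟩
  have h1 := (integral_eq_zero_iff_of_nonneg (fun x => Wr_nonneg p V x)
    (Wr_int hO.1).integrableOn).1 hR
  have h2 := (ae_restrict_iff' (HS_meas e R)).1 h1
  filter_upwards [h2, V_ne_zero hp hO.1] with x x1 x2 x3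
  by_contra hlt
  have h3 := x1 (le_of_not_ge hlt)
  have h4 : 0 < Wr p V x := by
    rw [Wr, ← ENNReal.toReal_rpow]
    exact Real.rpow_pos_of_pos (ENNReal.toReal_pos x2 x3.ne) _
  exact h4.ne' h3

lemma main_meas (hd : 0 < d) (hk : 0 < k) {p : ℝ} (hp : 0 < p) (hp1 : p ≤ 1) {V : E d → ℝ≥0∞}
    (hV : Measurable V) (hO : Optimal p k V) : ∃ R : ℝ, ∀ᵐ x, V x < ⊤ → ‖x‖ ≤ R := by
  choose R1 h1 using fun i : Fin d =>
    half' hd hk hp hp1 hV hO (EuclideanSpace.single i 1) (by simp)
  choose R2 h2 using fun i : Fin d =>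
    half' hd hk hp hp1 hV hO (EuclideanSpace.single i (-1)) (by simp)
  refine ⟨√(∑ i, (|R1 i| + |R2 i|) ^ 2), ?_⟩
  filter_upwards [ae_all_iff.2 h1, ae_all_iff.2 h2] with x x1 x2 hx
  rw [EuclideanSpace.norm_eq]
  refine Real.sqrt_le_sqrt (Finset.sum_le_sum fun i _ => ?_)
  refine pow_le_pow_left₀ (norm_nonneg _) ?_ 2
  have y1 := x1 i hx
  have y2 := x2 i hx
  simp only [EuclideanSpace.inner_single_left, map_one, one_mul, map_neg, neg_mul] at y1 y2
  rw [Real.norm_eq_abs, abs_le]
  constructor <;> linarith [le_abs_self (R1 i), le_abs_self (R2 i), abs_nonneg (R1 i),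
    abs_nonneg (R2 i)]

lemma lam_congr {V V' : E d → ℝ≥0∞} (h : V =ᵐ[volume] V') : lam k V = lam k V' := by
  have e : ∀ u : E d → ℝ, ∫⁻ x, V x * ‖u x‖ₑ ^ 2 = ∫⁻ x, V' x * ‖u x‖ₑ ^ 2 := fun u =>
    lintegral_congr_ae (by filter_upwards [h] with x hx; rw [hx])
  simp only [lam, InH1V, rayleigh, e]

theorem main (d k : ℕ) (p : ℝ) (hd : 1 ≤ d) (hk : 1 ≤ k) (hp : 0 < p) (hp1 : p ≤ 1)
    (V : E d → ℝ≥0∞) (hO : Optimal p k V) : ∃ R : ℝ, ∀ᵐ x, V x < ⊤ → ‖x‖ ≤ R := by
  have hm := hO.1.1
  have e := hm.ae_eq_mk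
  obtain ⟨R, hR⟩ := main_meas hd hk hp hp1 hm.measurable_mk (k := k)
    ⟨⟨hm.measurable_mk.aemeasurable, by
      refine le_trans (le_of_eq (lintegral_congr_ae ?_)) hO.1.2
      filter_upwards [e] with x hx
      rw [hx]⟩, fun V' hV' => by rw [← lam_congr e]; exact hO.2 V' hV'⟩
  refine ⟨R, ?_⟩
  filter_upwards [hR, e] with x x1 x2
  rwa [x2]

end H884Z.OP
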