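import Pool.Agent.H884Z.OP.Sob

open MeasureTheory Filter Topology Metric
open scoped ENNReal InnerProductSpace

namespace H884Z.OP

variable {d : ℕ}

lemma iadd {f g : E d → ℝ} (hf : Integrable f volume) (hg : Integrable g volume) :
    Integrable (fun x => f x + g x) volume := hf.add hg

lemma isub {f g : E d → ℝ} (hf : Integrable f volume) (hg : Integrable g volume) :
    Integrable (fun x => f x - g x) volume := hf.sub hg

/-- integral of `u` over the ball of radius `r` around `x` -/
noncomputable def T (r : ℝ) (u : E d → ℝ) (x : E d) : ℝ := ∫ z in ball (0 : E d) r, u (x + z)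

lemma aesm_add {u : E d → ℝ} (hu : AEStronglyMeasurable u volume) (r : ℝ) :
    AEStronglyMeasurable (fun p : E d × E d => u (p.1 + p.2))
      ((volume : Measure (E d)).prod (volume.restrict (ball (0 : E d) r))) := by
  have h1 : AEStronglyMeasurable (fun p : E d × E d => u (p.1 + p.2))
      ((volume : Measure (E d)).prod volume) :=
    hu.comp_quasiMeasurePreserving (quasiMeasurePreserving_add volume volume)
  exact h1.mono_measure (Measure.prod_mono le_rfl Measure.restrict_le_self)

lemma T_meas {u : E d → ℝ} (hu : AEStronglyMeasurable u volume) (r : ℝ) :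
    AEStronglyMeasurable (T r u) volume := (aesm_add hu r).integral_prod_right'

lemma fin_ball (r : ℝ) : IsFiniteMeasure ((volume : Measure (E d)).restrict (ball (0 : E d) r)) :=
  ⟨by simpa using measure_ball_lt_top⟩

lemma int_prod {u : E d → ℝ} (hu : MemLp u 2 volume) (r : ℝ) :
    Integrable (fun p : E d × E d => u p.1 * u (p.1 + p.2))
      ((volume : Measure (E d)).prod (volume.restrict (ball (0 : E d) r))) := by
  have := fin_ball (d := d) r
  have m1 : AEStronglyMeasurable (fun p : E d × E d => u p.1 * u (p.1 + p.2))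
      ((volume : Measure (E d)).prod (volume.restrict (ball (0 : E d) r))) :=
    (hu.aestronglyMeasurable.comp_fst).mul (aesm_add hu.aestronglyMeasurable r)
  rw [integrable_prod_iff' m1]
  refine ⟨Eventually.of_forall fun z => int_mul hu (mem_transl hu z), ?_⟩
  refine Integrable.mono' (integrable_const (∫ x, u x ^ 2)) (m1.norm.prod_swap.integral_prod_right')
    (Eventually.of_forall fun z => ?_)
  rw [Real.norm_of_nonneg (integral_nonneg fun _ => norm_nonneg _)]
  have i1 := int_sq hu
  have i2 := int_sq (mem_transl hu z)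
  calc ∫ x, ‖u x * u (x + z)‖ ≤ ∫ x, (u x ^ 2 + u (x + z) ^ 2) / 2 := by
        refine integral_mono (int_mul hu (mem_transl hu z)).norm ((i1.add i2).div_const _) fun x => ?_
        simp only [norm_mul, Real.norm_eq_abs]
        nlinarith [sq_nonneg (|u x| - |u (x + z)|), sq_abs (u x), sq_abs (u (x + z))]
    _ = ∫ x, u x ^ 2 := by
        rw [integral_div, integral_add i1 i2, integral_add_right_eq_self (fun x => u x ^ 2) z]
        ring

lemma int_uT {u : E d → ℝ} (hu : MemLp u 2 volume) (r : ℝ) :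
    Integrable (fun x => u x * T r u x) volume := by
  have := (int_prod hu r).integral_prod_left
  simpa [T, integral_const_mul] using this

/-- volume of the ball of radius `r` -/
noncomputable def vb (d : ℕ) (r : ℝ) : ℝ := (volume : Measure (E d)).real (ball 0 r)

lemma vb_pos {r : ℝ} (hr : 0 < r) : 0 < vb d r :=
  ENNReal.toReal_pos (measure_ball_pos _ _ hr).ne' measure_ball_lt_top.ne

lemma vb_eq {r : ℝ} (hr : 0 < r) : vb d r = r ^ d * vb d 1 := by
  unfold vb
  rw [measureReal_def, Measure.addHaar_ball_of_pos _ _ hr, ENNReal.toReal_mul,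
    ENNReal.toReal_ofReal (by positivity)]
  simp [measureReal_def]

lemma nash0 {u : E d → ℝ} {G : E d → E d} (h : Sob u G) {r : ℝ} (hr : 0 < r) :
    vb d r * ∫ x, u x ^ 2 ≤ (∫ x, u x * T r u x) + vb d r * (r ^ 2 / 2 * ∫ x, ‖G x‖ ^ 2) := by
  have := fin_ball (d := d) r
  have hp := int_prod h.u2 r
  have e1 : ∫ x, u x * T r u x = ∫ z in ball (0 : E d) r, ∫ x, u x * u (x + z) := by
    rw [← integral_integral_swap (f := fun x z => u x * u (x + z)) hp]
    simp [T, integral_const_mul]
  have i1 := int_sq h.u2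
  have key : ∀ z ∈ ball (0 : E d) r,
      (∫ x, u x ^ 2) - r ^ 2 / 2 * ∫ x, ‖G x‖ ^ 2 ≤ ∫ x, u x * u (x + z) := by
    intro z hz
    have i2 := int_sq (mem_transl h.u2 z)
    have i3 := int_mul h.u2 (mem_transl h.u2 z)
    have t := h.transl z
    have e2 : ∫ x, (u (x + z) - u x) ^ 2 = 2 * (∫ x, u x ^ 2) - 2 * ∫ x, u x * u (x + z) := by
      have : ∀ x, (u (x + z) - u x) ^ 2 = (u (x + z) ^ 2 + u x ^ 2) - 2 * (u x * u (x + z)) :=
        fun x => by ring
      simp only [this]
      rw [integral_sub (iadd i2 i1) (i3.const_mul 2), integral_add i2 i1, integral_const_mul,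
        integral_add_right_eq_self (fun x => u x ^ 2) z]
      ring
    have hz' : ‖z‖ ^ 2 ≤ r ^ 2 := by
      have : ‖z‖ < r := by simpa using hz
      gcongr
    have g0 : 0 ≤ ∫ x, ‖G x‖ ^ 2 := integral_nonneg fun _ => by positivity
    nlinarith [mul_le_mul_of_nonneg_right hz' g0]
  have := setIntegral_mono_on (integrableOn_const (measure_ball_lt_top.ne))
    (hp.integral_prod_right) measurableSet_ball key
  rw [setIntegral_const, ← e1, smul_eq_mul] at this
  unfold vb
  linarith

lemma T_le_L1 {u : E d → ℝ} (hu : Integrable u volume) (r : ℝ) (x : E d) :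
    |T r u x| ≤ ∫ y, |u y| := by
  have i1 : Integrable (fun z => |u (x + z)|) volume := (hu.comp_add_left x).abs
  calc |T r u x| ≤ ∫ z in ball (0 : E d) r, |u (x + z)| := abs_integral_le_integral_abs
    _ ≤ ∫ z, |u (x + z)| := setIntegral_le_integral i1 (Eventually.of_forall fun _ => abs_nonneg _)
    _ = ∫ y, |u y| := integral_add_left_eq_self (fun y => |u y|) x

lemma nash {u : E d → ℝ} {G : E d → E d} (h : Sob u G) (hu : Integrable u volume) {r : ℝ}
    (hr : 0 < r) :
    vb d r * ∫ x, u x ^ 2 ≤ (∫ x, |u x|) ^ 2 + vb d r * (r ^ 2 / 2 * ∫ x, ‖G x‖ ^ 2) := by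
  refine (nash0 h hr).trans ?_
  gcongr
  calc ∫ x, u x * T r u x ≤ ∫ x, |u x| * ∫ y, |u y| := by
        refine integral_mono (int_uT h.u2 r) (hu.abs.mul_const _) fun x => ?_
        calc u x * T r u x ≤ |u x * T r u x| := le_abs_self _
          _ = |u x| * |T r u x| := abs_mul _ _
          _ ≤ _ := mul_le_mul_of_nonneg_left (T_le_L1 hu r x) (abs_nonneg _)
    _ = _ := by rw [integral_mul_const, sq]

lemma ind_mem (x : E d) (r : ℝ) :
    MemLp ((ball x r).indicator (fun _ => (1 : ℝ))) 2 (volume : Measure (E d)) :=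
  memLp_indicator_const 2 measurableSet_ball 1 (Or.inr measure_ball_lt_top.ne)

lemma T_eq (u : E d → ℝ) (r : ℝ) (x : E d) :
    T r u x = ∫ y, u y * (ball x r).indicator (fun _ => (1 : ℝ)) y := by
  rw [T, ← integral_indicator measurableSet_ball,
    ← integral_add_left_eq_self (fun y => u y * (ball x r).indicator (fun _ => (1 : ℝ)) y) x]
  congr 1; ext z
  by_cases hz : z ∈ ball (0 : E d) r
  · have : x + z ∈ ball x r := by simpa [dist_eq_norm] using hz
    simp [hz, this]
  · have : x + z ∉ ball x r := by simpa [dist_eq_norm] using hz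
    simp [hz, this]

lemma T_le_L2 {u : E d → ℝ} (hu : MemLp u 2 volume) (r : ℝ) (x : E d) :
    |T r u x| ≤ vb d r + ∫ y, u y ^ 2 := by
  have := fin_ball (d := d) r
  have m : MemLp (fun z => u (x + z)) 2 volume :=
    hu.comp_measurePreserving (measurePreserving_add_left volume x)
  have i1 := int_sq m
  calc |T r u x| ≤ ∫ z in ball (0 : E d) r, |u (x + z)| := abs_integral_le_integral_abs
    _ ≤ ∫ z in ball (0 : E d) r, (1 + u (x + z) ^ 2) := by
        refine integral_mono ((m.restrict _).integrable (by norm_num)).abs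
          ((integrable_const _).add i1.integrableOn) fun z => ?_
        nlinarith [sq_nonneg (|u (x + z)| - 1), sq_abs (u (x + z)), abs_nonneg (u (x + z))]
    _ = vb d r + ∫ z in ball (0 : E d) r, u (x + z) ^ 2 := by
        rw [integral_add (integrable_const _) i1.integrableOn]; simp [vb]
    _ ≤ vb d r + ∫ z, u (x + z) ^ 2 := by
        gcongr
        · exact Eventually.of_forall fun _ => sq_nonneg _
        · exact Measure.restrict_le_self
    _ = _ := by rw [integral_add_left_eq_self (fun y => u y ^ 2) x]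

/-- the pointwise bound relating the potential and its negative power -/
def Dom (Vr W g : E d → ℝ) : Prop :=
  ∀ᵐ x, ∀ δ : ℝ, 0 < δ → |g x| ≤ δ * (g x ^ 2 + Vr x * g x ^ 2) + W x / δ

/-- compactness: weakly null sequences bounded in the form norm are strongly null -/
lemma cpt {Vr W : E d → ℝ} (hW : Integrable W volume) (hW0 : ∀ x, 0 ≤ W x) (hV0 : ∀ x, 0 ≤ Vr x)
    {g : ℕ → E d → ℝ} {H : ℕ → E d → E d} (hs : ∀ n, Sob (g n) (H n)) {C : ℝ}
    (hi : ∀ n, Integrable (fun x => Vr x * g n x ^ 2) volume)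
    (h1 : ∀ n, ∫ x, g n x ^ 2 ≤ C) (h2 : ∀ n, ∫ x, ‖H n x‖ ^ 2 ≤ C)
    (h3 : ∀ n, ∫ x, Vr x * g n x ^ 2 ≤ C) (hd : ∀ n, Dom Vr W (g n))
    (hw : ∀ h : E d → ℝ, MemLp h 2 volume → Tendsto (fun n => ∫ x, g n x * h x) atTop (𝓝 0)) :
    Tendsto (fun n => ∫ x, g n x ^ 2) atTop (𝓝 0) := by
  have hC : 0 ≤ C := (integral_nonneg fun _ => sq_nonneg _).trans (h1 0)
  rw [Metric.tendsto_atTop]
  intro ε hε
  obtain ⟨r, hr, hrC⟩ : ∃ r : ℝ, 0 < r ∧ r ^ 2 / 2 * C ≤ ε / 3 := by
    refine ⟨min 1 (ε / (3 * (C + 1))), by positivity, ?_⟩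
    have a1 : min 1 (ε / (3 * (C + 1))) ≤ 1 := min_le_left _ _
    have a2 : min 1 (ε / (3 * (C + 1))) ≤ ε / (3 * (C + 1)) := min_le_right _ _
    have a0 : 0 < min 1 (ε / (3 * (C + 1))) := by positivity
    rw [le_div_iff₀ (by positivity)] at a2
    nlinarith [mul_le_mul_of_nonneg_left a1 (mul_nonneg a0.le hC)]
  have hv := vb_pos (d := d) hr
  set v := vb d r with hvdef
  set D := v + C with hD
  have hD0 : 0 < D := by positivity
  have hT : ∀ n x, |T r (g n) x| ≤ D := fun n x =>
    (T_le_L2 (hs n).u2 r x).trans (by rw [hD]; gcongr; exact h1 n)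
  obtain ⟨δ, hδ, hδC⟩ : ∃ δ : ℝ, 0 < δ ∧ δ * D * (2 * C) ≤ v * (ε / 3) := by
    refine ⟨v * (ε / 3) / (D * (2 * C + 1)), by positivity, ?_⟩
    rw [div_mul_eq_mul_div, div_mul_eq_mul_div, div_le_iff₀ (by positivity)]
    have : 0 < v * (ε / 3) * D := by positivity
    nlinarith
  have hTm : ∀ n, AEStronglyMeasurable (T r (g n)) volume := fun n =>
    T_meas (hs n).u2.aestronglyMeasurable r
  have hiW : ∀ n, Integrable (fun x => W x * |T r (g n) x|) volume := fun n =>
    hW.mul_bdd (c := D) (hTm n).norm (Eventually.of_forall fun x => by simpa using hT n x)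
  have lim : Tendsto (fun n => ∫ x, W x * |T r (g n) x|) atTop (𝓝 (∫ _ : E d, (0 : ℝ))) := by
    refine tendsto_integral_of_dominated_convergence (fun x => W x * D)
      (fun n => (hiW n).aestronglyMeasurable) (hW.mul_const D) (fun n => ?_) ?_
    · refine Eventually.of_forall fun x => ?_
      rw [Real.norm_of_nonneg (mul_nonneg (hW0 x) (abs_nonneg _))]
      exact mul_le_mul_of_nonneg_left (hT n x) (hW0 x)
    · refine Eventually.of_forall fun x => ?_
      have := ((hw _ (ind_mem x r)).abs).const_mul (W x)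
      simpa [T_eq] using this
  rw [integral_zero] at lim
  obtain ⟨N, hN⟩ := (Metric.tendsto_atTop.1 lim) (δ * (v * (ε / 3))) (by positivity)
  refine ⟨N, fun n hn => ?_⟩
  have a1 := hN n hn
  rw [Real.dist_eq, sub_zero] at a1 ⊢
  rw [abs_of_nonneg (integral_nonneg fun _ => sq_nonneg _)]
  have a2 := nash0 (hs n) hr
  have i1 := int_sq (hs n).u2
  have a3 : ∫ x, g n x * T r (g n) x ≤
      ∫ x, (δ * D * (g n x ^ 2 + Vr x * g n x ^ 2) + W x * |T r (g n) x| / δ) := by
    refine integral_mono_ae (int_uT (hs n).u2 r)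
      (((i1.add (hi n)).const_mul _).add ((hiW n).div_const _)) ?_
    filter_upwards [hd n] with x hx
    have b1 := hx δ hδ
    have b2 := hT n x
    have b3 : 0 ≤ g n x ^ 2 + Vr x * g n x ^ 2 := by have := hV0 x; positivity
    calc g n x * T r (g n) x ≤ |g n x| * |T r (g n) x| := by
          rw [← abs_mul]; exact le_abs_self _
      _ ≤ (δ * (g n x ^ 2 + Vr x * g n x ^ 2) + W x / δ) * |T r (g n) x| :=
          mul_le_mul_of_nonneg_right b1 (abs_nonneg _)
      _ = δ * (g n x ^ 2 + Vr x * g n x ^ 2) * |T r (g n) x| + W x * |T r (g n) x| / δ := by ring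
      _ ≤ δ * (g n x ^ 2 + Vr x * g n x ^ 2) * D + W x * |T r (g n) x| / δ := by gcongr
      _ = _ := by ring
  rw [integral_add ((iadd i1 (hi n)).const_mul _) ((hiW n).div_const _), integral_const_mul,
    integral_add i1 (hi n), integral_div] at a3
  have a4 : (∫ x, W x * |T r (g n) x|) / δ < v * (ε / 3) := by
    rw [div_lt_iff₀ hδ]
    have := le_abs_self (∫ x, W x * |T r (g n) x|)
    linarith
  have a5 : δ * D * ((∫ x, g n x ^ 2) + ∫ x, Vr x * g n x ^ 2) ≤ δ * D * (2 * C) := by
    have := h1 n; have := h3 n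
    gcongr; linarith
  have a6 : v * (r ^ 2 / 2 * ∫ x, ‖H n x‖ ^ 2) ≤ v * (ε / 3) := by
    gcongr
    exact (mul_le_mul_of_nonneg_left (h2 n) (by positivity)).trans hrC
  have a7 : v * ∫ x, g n x ^ 2 < v * ε := by linarith
  exact lt_of_mul_lt_mul_left a7 hv.le

end H884Z.OP
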