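import Pool.Agent.H884Z.OP.Att

open MeasureTheory Filter Topology Metric
open scoped ENNReal InnerProductSpace

namespace H884Z.OP

variable {d k : ℕ}

/-- first variation density -/
noncomputable def mbv (p l v s z : ℝ) (g : E d) (f : ℝ) (H : E d) (f' : ℝ) (H' : E d) : ℝ :=
  v * (f * f') * (-s / p + 2 * z) + (2 * z * ⟪H, H'⟫_ℝ + 2 * (f * ⟪H', g⟫_ℝ) - 2 * l * z * (f * f'))

lemma pt_pert {p : ℝ} (hp : 0 < p) {K : ℝ} (hK : 0 ≤ K) {l : ℝ} (hl : 0 ≤ l) {ε : ℝ} (hε : 0 < ε) :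
    ∃ t : ℝ, 0 < t ∧ t * K ≤ 1 / 2 ∧ ∀ (s z v f : ℝ) (g H : E d), |s| ≤ K → |z| ≤ K → ‖g‖ ≤ K →
      0 ≤ v → ‖(1 + t * z) • H + f • t • g‖ ^ 2 + v * (1 + t * s) ^ (-1 / p) * ((1 + t * z) * f) ^ 2
        - l * ((1 + t * z) * f) ^ 2 ≤ (‖H‖ ^ 2 + v * f ^ 2 - l * f ^ 2)
          + t * mbv p l v s z g f H f H + t * ε * (‖H‖ ^ 2 + v * f ^ 2 + f ^ 2) := by
  have hd : HasDerivAt (fun y : ℝ => (1 + y) ^ (-1 / p)) (-1 / p) 0 := by
    have := ((hasDerivAt_id (0 : ℝ)).const_add 1).rpow_const (p := -1 / p) (Or.inl (by simp))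
    simpa using this
  have ho := (hasDerivAt_iff_isLittleO.1 hd).bound (c := ε / (8 * (K + 1))) (by positivity)
  obtain ⟨η, η0, hη⟩ := Metric.eventually_nhds_iff.1 ho
  set A := K ^ 2 * (1 + 3 / p) with hA
  have A0 : 0 ≤ A := by positivity
  set t := min (min (1 / 2) (η / 2) / (K + 1)) (ε / (2 * (A + 1))) with ht
  have t0 : 0 < t := by positivity
  have t1 : t * (K + 1) ≤ min (1 / 2) (η / 2) := (le_div_iff₀ (by positivity)).1 (min_le_left _ _)
  have t2 : t * (2 * (A + 1)) ≤ ε := (le_div_iff₀ (by positivity)).1 (min_le_right _ _)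
  have t3 : t * K ≤ 1 / 2 := by nlinarith [min_le_left (1 / 2 : ℝ) (η / 2)]
  have t4 : t * K < η := by nlinarith [min_le_right (1 / 2 : ℝ) (η / 2)]
  have t5 : t * A ≤ ε / 2 := by nlinarith
  refine ⟨t, t0, t3, fun s z v f g H hs hz hg hv => ?_⟩
  have a1 : |t * s| ≤ t * K := by rw [abs_mul, abs_of_pos t0]; gcongr
  have a2 : |t * z| ≤ t * K := by rw [abs_mul, abs_of_pos t0]; gcongr
  have a3 := hη (y := t * s) (by rw [Real.dist_eq, sub_zero]; exact lt_of_le_of_lt a1 t4)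
  simp only [add_zero, Real.one_rpow, sub_zero, smul_eq_mul, Real.norm_eq_abs] at a3
  have a4 : (1 + t * s) ^ (-1 / p) ≤ 1 - t * s / p + t * (ε / 8) := by
    have b1 := (le_abs_self _).trans a3
    have b2 : ε / (8 * (K + 1)) * |t * s| ≤ t * (ε / 8) := by
      calc ε / (8 * (K + 1)) * |t * s| ≤ ε / (8 * (K + 1)) * (t * (K + 1)) := by
            gcongr; nlinarith
        _ = t * (ε / 8) := by field_simp
    have b3 : t * s * (-1 / p) = -(t * s / p) := by ring
    linarith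
  have a5 : (1 + t * s) ^ (-1 / p) * (1 + t * z) ^ 2 ≤ 1 + t * (-s / p + 2 * z) + t * ε := by
    have c1 := abs_le.1 (a2.trans t3)
    have c2 : (1 + t * z) ^ 2 ≤ 4 := by nlinarith
    have c3 : (t * z) ^ 2 ≤ (t * K) ^ 2 := by
      rw [← sq_abs]; gcongr
    have c4 : |t * s * (2 * (t * z) + (t * z) ^ 2)| ≤ (t * K) * (3 * (t * K)) := by
      rw [abs_mul]
      refine mul_le_mul a1 ?_ (abs_nonneg _) (by positivity)
      have : 2 * (t * z) + (t * z) ^ 2 = (t * z) * (2 + t * z) := by ring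
      rw [this, abs_mul, mul_comm 3]
      refine mul_le_mul a2 ?_ (abs_nonneg _) (by positivity)
      rw [abs_le]; constructor <;> linarith
    have c5 : -(t * s * (2 * (t * z) + (t * z) ^ 2)) / p ≤ (t * K) * (3 * (t * K)) / p := by
      gcongr
      exact (neg_le_abs _).trans c4
    have c6 : (t * K) ^ 2 + (t * K) * (3 * (t * K)) / p = t * (t * A) := by rw [hA]; ring
    have c7 : t * (t * A) ≤ t * (ε / 2) := by gcongr
    have c8 : t * (ε / 8) * (1 + t * z) ^ 2 ≤ t * (ε / 8) * 4 := by gcongr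
    calc (1 + t * s) ^ (-1 / p) * (1 + t * z) ^ 2
        ≤ (1 - t * s / p + t * (ε / 8)) * (1 + t * z) ^ 2 := by gcongr
      _ = 1 + t * (-s / p + 2 * z) + ((t * z) ^ 2 + -(t * s * (2 * (t * z) + (t * z) ^ 2)) / p)
          + t * (ε / 8) * (1 + t * z) ^ 2 := by ring
      _ ≤ _ := by linarith
  have a6 : v * (1 + t * s) ^ (-1 / p) * ((1 + t * z) * f) ^ 2
      ≤ v * f ^ 2 * (1 + t * (-s / p + 2 * z) + t * ε) := by
    calc _ = v * f ^ 2 * ((1 + t * s) ^ (-1 / p) * (1 + t * z) ^ 2) := by ring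
      _ ≤ _ := by gcongr
  have a7 : ‖(1 + t * z) • H + f • t • g‖ ^ 2 ≤ ‖H‖ ^ 2 + t * (2 * z * ⟪H, H⟫_ℝ
      + 2 * (f * ⟪H, g⟫_ℝ)) + t * ε * (‖H‖ ^ 2 + f ^ 2) := by
    have e : (1 + t * z) • H + f • t • g = H + t • (z • H + f • g) := by module
    rw [e, norm_add_sq_real, real_inner_smul_right, inner_add_right, real_inner_smul_right,
      real_inner_smul_right, norm_smul, Real.norm_of_nonneg t0.le, mul_pow]
    have b1 : ‖z • H + f • g‖ ≤ K * ‖H‖ + |f| * K := by
      refine (norm_add_le _ _).trans ?_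
      rw [norm_smul, norm_smul, Real.norm_eq_abs, Real.norm_eq_abs]
      gcongr
    have b2 : ‖z • H + f • g‖ ^ 2 ≤ 2 * K ^ 2 * (‖H‖ ^ 2 + f ^ 2) := by
      have := pow_le_pow_left₀ (norm_nonneg _) b1 2
      nlinarith [sq_nonneg (K * ‖H‖ - |f| * K), sq_abs f]
    have b3 : t * (2 * K ^ 2) ≤ ε := by
      have : K ^ 2 ≤ A := by
        rw [hA]; exact le_mul_of_one_le_right (sq_nonneg _) (by
          have : 0 ≤ 3 / p := by positivity
          linarith)
      nlinarith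
    have b4 : t ^ 2 * ‖z • H + f • g‖ ^ 2 ≤ t * ε * (‖H‖ ^ 2 + f ^ 2) := by
      calc t ^ 2 * ‖z • H + f • g‖ ^ 2 ≤ t ^ 2 * (2 * K ^ 2 * (‖H‖ ^ 2 + f ^ 2)) := by gcongr
        _ = t * (t * (2 * K ^ 2)) * (‖H‖ ^ 2 + f ^ 2) := by ring
        _ ≤ _ := by gcongr
    linarith
  have a8 : 0 ≤ l * (t * z * f) ^ 2 := by positivity
  unfold mbv
  nlinarith

lemma mbv_int {p l : ℝ} {V : E d → ℝ≥0∞} (hV : Measurable V) {ψ ζ : E d → ℝ} {K : ℝ}
    (hψ : Measurable ψ) (hb : ∀ x, |ψ x| ≤ K) (hζ : Mult ζ K) {f f' : E d → ℝ} {H H' : E d → E d}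
    (h : HV V f H) (h' : HV V f' H') :
    Integrable (fun x => mbv p l (V x).toReal (ψ x) (ζ x) (gradient ζ x) (f x) (H x) (f' x) (H' x))
      volume := by
  have m1 : AEStronglyMeasurable ζ volume := hζ.sm.continuous.aestronglyMeasurable
  have m2 : AEStronglyMeasurable (gradient ζ) volume := (cont_grad hζ.sm).aestronglyMeasurable
  have i1 := (h.cross hV h').mul_bdd (c := K) hψ.aestronglyMeasurable (Eventually.of_forall hb)
  have i2 := (h.cross hV h').mul_bdd (c := K) m1 (Eventually.of_forall hζ.bd)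
  have i3 := (int_inner h.sob.G2 h'.sob.G2).mul_bdd (c := K) m1 (Eventually.of_forall hζ.bd)
  have i4 := int_inner h'.sob.G2 (mem_smul_bdd m2 hζ.gbd h.sob.u2)
  have i5 := (int_mul h.sob.u2 h'.sob.u2).mul_bdd (c := K) m1 (Eventually.of_forall hζ.bd)
  have := iadd (iadd (i1.const_mul (-1 / p)) (i2.const_mul 2))
    (isub (iadd (i3.const_mul 2) (i4.const_mul 2)) (i5.const_mul (2 * l)))
  refine this.congr (Eventually.of_forall fun x => ?_)
  simp only [mbv, real_inner_smul_right]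
  ring

lemma mbv_lc (p l v s z : ℝ) (g : E d) (c : Fin k → ℝ) (u : Fin k → E d → ℝ)
    (G : Fin k → E d → E d) (x : E d) :
    mbv p l v s z g (lc c u x) (lg c G x) (lc c u x) (lg c G x)
      = ∑ a, ∑ b, c a * c b * mbv p l v s z g (u a x) (G a x) (u b x) (G b x) := by
  have e1 : ∀ (f' : ℝ) (H' : E d), mbv p l v s z g (lc c u x) (lg c G x) f' H'
      = ∑ a, c a * mbv p l v s z g (u a x) (G a x) f' H' := by
    intro f' H'
    simp only [mbv, lc, lg, sum_inner, real_inner_smul_left, Finset.sum_mul, Finset.mul_sum,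
      ← Finset.sum_add_distrib, ← Finset.sum_sub_distrib]
    exact Finset.sum_congr rfl fun a _ => by ring
  have e2 : ∀ (f : ℝ) (H : E d), mbv p l v s z g f H (lc c u x) (lg c G x)
      = ∑ a, c a * mbv p l v s z g f H (u a x) (G a x) := by
    intro f H
    simp only [mbv, lc, lg, sum_inner, inner_sum, real_inner_smul_left, real_inner_smul_right,
      Finset.sum_mul, Finset.mul_sum, ← Finset.sum_add_distrib, ← Finset.sum_sub_distrib]
    exact Finset.sum_congr rfl fun a _ => by ring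
  rw [e1]
  refine Finset.sum_congr rfl fun a _ => ?_
  rw [e2, Finset.mul_sum]
  exact Finset.sum_congr rfl fun b _ => by ring

lemma grad_affine {ζ : E d → ℝ} (h : Sm ζ) (a t : ℝ) (x : E d) :
    gradient (fun x => a + t * ζ x) x = t • gradient ζ x := by
  have dζ : DifferentiableAt ℝ ζ x := h.differentiable (by simp) x
  have : HasFDerivAt (fun x => a + t * ζ x) (t • fderiv ℝ ζ x) x :=
    (dζ.hasFDerivAt.const_mul t).const_add a
  rw [gradient, this.fderiv, map_smul, gradient]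

lemma grad_add {ζ ξ : E d → ℝ} (h : Sm ζ) (h' : Sm ξ) (x : E d) :
    gradient (fun x => ζ x + ξ x) x = gradient ζ x + gradient ξ x := by
  have dζ : DifferentiableAt ℝ ζ x := h.differentiable (by simp) x
  have dξ : DifferentiableAt ℝ ξ x := h'.differentiable (by simp) x
  have : HasFDerivAt (fun x => ζ x + ξ x) (fderiv ℝ ζ x + fderiv ℝ ξ x) x :=
    dζ.hasFDerivAt.add dξ.hasFDerivAt
  rw [gradient, this.fderiv, map_add, gradient, gradient]

lemma Mult.affine {ζ : E d → ℝ} {K : ℝ} (h : Mult ζ K) (a t : ℝ) :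
    Mult (fun x => a + t * ζ x) (|a| + |t| * K) := by
  refine ⟨contDiff_const.add (contDiff_const.mul h.sm), fun x => ?_, fun x => ?_⟩
  · refine (abs_add_le _ _).trans ?_
    rw [abs_mul]
    have := h.bd x
    gcongr
  · rw [grad_affine h.sm, norm_smul, Real.norm_eq_abs]
    have := h.gbd x
    have h2 : |t| * ‖gradient ζ x‖ ≤ |t| * K := by gcongr
    linarith [abs_nonneg a]

lemma Mult.add {ζ ξ : E d → ℝ} {K K' : ℝ} (h : Mult ζ K) (h' : Mult ξ K') :
    Mult (fun x => ζ x + ξ x) (K + K') := by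
  refine ⟨h.sm.add h'.sm, fun x => (abs_add_le _ _).trans (add_le_add (h.bd x) (h'.bd x)),
    fun x => ?_⟩
  rw [grad_add h.sm h'.sm]
  exact (norm_add_le _ _).trans (add_le_add (h.gbd x) (h'.gbd x))

lemma Mult.zero {K : ℝ} (hK : 0 ≤ K) : Mult (fun _ : E d => (0 : ℝ)) K :=
  ⟨contDiff_const, fun _ => by simpa using hK, fun _ => by simpa using hK⟩

lemma lint_W {p : ℝ} {V : E d → ℝ≥0∞} (hA : Adm p V) {θ : E d → ℝ} (h0 : ∀ x, 0 ≤ θ x)
    (hi : Integrable (fun x => Wr p V x * θ x) volume) :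
    ∫⁻ x, V x ^ (-p) * ENNReal.ofReal (θ x) = ENNReal.ofReal (∫ x, Wr p V x * θ x) := by
  rw [ofReal_integral_eq_lintegral_ofReal hi
    (Eventually.of_forall fun x => mul_nonneg (Wr_nonneg p V x) (h0 x))]
  refine lintegral_congr_ae ?_
  filter_upwards [ae_lt_top' (hA.1.pow_const (-p))
    (ne_top_of_le_ne_top ENNReal.one_ne_top hA.2)] with x hx
  rw [ENNReal.ofReal_mul (Wr_nonneg p V x), Wr, ENNReal.ofReal_toReal hx.ne]

lemma no_neg (hk : 0 < k) {p : ℝ} (hp : 0 < p) {V : E d → ℝ≥0∞} (hV : Measurable V)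
    (hO : Optimal p k V) (hfin : lam k V ≠ ⊤) {u : Fin k → E d → ℝ} {G : Fin k → E d → E d}
    (hu : ∀ i, HV V (u i) (G i)) (hN : ∀ c, ∫ x, lc c u x ^ 2 = ∑ a, c a ^ 2)
    (hQ : ∀ c, Q V (lc c u) (lg c G) ≤ (lam k V).toReal * ∑ a, c a ^ 2)
    {ψ ζ : E d → ℝ} {K : ℝ} (hψ : Measurable ψ) (hb : ∀ x, |ψ x| ≤ K)
    (hW : ∫ x, Wr p V x * ψ x = 0) (hζ : Mult ζ K) {δ : ℝ} (hδ : 0 < δ) :
    ¬ ∀ c : Fin k → ℝ, ∫ x, mbv p (lam k V).toReal (V x).toReal (ψ x) (ζ x) (gradient ζ x)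
      (lc c u x) (lg c G x) (lc c u x) (lg c G x) ≤ -δ * ∑ a, c a ^ 2 := by
  intro hneg
  set l := (lam k V).toReal with hl
  have l0 : 0 ≤ l := ENNReal.toReal_nonneg
  have K0 : 0 ≤ K := (abs_nonneg _).trans (hb 0)
  obtain ⟨t, t0, tK, hpt⟩ := pt_pert (d := d) hp K0 l0 (ε := δ / (2 * (l + 1))) (by positivity)
  have bψ : ∀ x, 1 / 2 ≤ 1 + t * ψ x := fun x => by
    have := (abs_le.1 (hb x)).1
    nlinarith
  have bζ : ∀ x, 1 / 2 ≤ 1 + t * ζ x ∧ 1 + t * ζ x ≤ 2 := fun x => by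
    have := abs_le.1 (hζ.bd x)
    constructor <;> nlinarith
  set ρ : E d → ℝ := fun x => (1 + t * ψ x) ^ (-1 / p) with hρ
  have ρ0 : ∀ x, 0 < ρ x := fun x => Real.rpow_pos_of_pos (by linarith [bψ x]) _
  have ρb : ∀ x, ρ x ≤ (1 / 2) ^ (-1 / p) := fun x =>
    Real.rpow_le_rpow_of_nonpos (by norm_num) (bψ x) (by
      rw [neg_div]; exact neg_nonpos.2 (by positivity))
  have ρm : Measurable ρ := (measurable_const.add (measurable_const.mul hψ)).pow_const _
  set Vt : E d → ℝ≥0∞ := fun x => V x * ENNReal.ofReal (ρ x) with hVt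
  have hVtm : Measurable Vt := hV.mul ρm.ennreal_ofReal
  have iW := Wr_int hO.1
  have iWψ : Integrable (fun x => Wr p V x * ψ x) volume :=
    iW.mul_bdd (c := K) hψ.aestronglyMeasurable (Eventually.of_forall hb)
  have adm : Adm p Vt := by
    refine ⟨hVtm.aemeasurable, ?_⟩
    have e : ∀ x, Vt x ^ (-p) = V x ^ (-p) * ENNReal.ofReal (1 + t * ψ x) := by
      intro x
      by_cases h : V x = ⊤
      · simp only [hVt, h]
        rw [ENNReal.top_mul (by simpa using ρ0 x), ENNReal.top_rpow_of_neg (by linarith), zero_mul]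
      · simp only [hVt]
        rw [ENNReal.mul_rpow_of_ne_top h ENNReal.ofReal_ne_top,
          ENNReal.ofReal_rpow_of_pos (ρ0 x), hρ, ← Real.rpow_mul (by linarith [bψ x]),
          show -1 / p * -p = 1 by field_simp, Real.rpow_one]
    simp only [e]
    have e1 : ∀ x, Wr p V x * (1 + t * ψ x) = Wr p V x * 1 + t * (Wr p V x * ψ x) :=
      fun x => by ring
    have i1 : Integrable (fun x => Wr p V x * 1) volume := iW.mul_const 1
    rw [lint_W hO.1 (fun x => by linarith [bψ x]) (by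
      simp only [e1]; exact iadd i1 (iWψ.const_mul t))]
    simp only [e1]
    rw [integral_add i1 (iWψ.const_mul t), integral_const_mul, hW, mul_zero, add_zero,
      ← lint_W hO.1 (θ := fun _ => 1) (fun _ => zero_le_one) i1]
    simpa using hO.1.2
  have hm := hζ.affine 1 t
  have eV : ∀ x, (Vt x).toReal = (V x).toReal * ρ x := fun x => by
    simp only [hVt]; rw [ENNReal.toReal_mul, ENNReal.toReal_ofReal (ρ0 x).le]
  have hvt : ∀ {f : E d → ℝ} {H : E d → E d}, HV V f H → HV Vt (fun x => (1 + t * ζ x) * f x)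
      (fun x => (1 + t * ζ x) • H x + f x • gradient (fun x => 1 + t * ζ x) x) := by
    intro f H h
    refine ⟨h.sob.mul hm, ?_, ?_⟩
    · filter_upwards [h.van] with x hx hx'
      have : V x = ⊤ := by
        by_contra hne
        exact ENNReal.mul_ne_top hne ENNReal.ofReal_ne_top hx'
      rw [hx this, mul_zero]
    · have := h.int.mul_bdd (g := fun x => ρ x * (1 + t * ζ x) ^ 2)
        (c := (1 / 2) ^ (-1 / p) * 2 ^ 2)
        (ρm.aestronglyMeasurable.mul (hm.sm.continuous.pow 2).aestronglyMeasurable)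
        (Eventually.of_forall fun x => by
          have := bζ x
          rw [Real.norm_of_nonneg (mul_nonneg (ρ0 x).le (sq_nonneg _))]
          exact mul_le_mul (ρb x) (pow_le_pow_left₀ (by linarith) this.2 2) (sq_nonneg _)
            (by positivity))
      refine this.congr (Eventually.of_forall fun x => ?_)
      simp only [eV]; ring
  have e1 : ∀ c : Fin k → ℝ, lc c (fun i x => (1 + t * ζ x) * u i x)
      = fun x => (1 + t * ζ x) * lc c u x := by
    intro c; ext x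
    simp only [lc, Finset.mul_sum]
    exact Finset.sum_congr rfl fun a _ => by ring
  have e2 : ∀ c : Fin k → ℝ, lg c (fun i x => (1 + t * ζ x) • G i x
      + u i x • gradient (fun x => 1 + t * ζ x) x)
      = fun x => (1 + t * ζ x) • lg c G x + lc c u x • gradient (fun x => 1 + t * ζ x) x := by
    intro c; ext1 x
    simp only [lc, lg, smul_add, Finset.sum_add_distrib, Finset.smul_sum, Finset.sum_smul,
      smul_smul, mul_comm]
  have nb : ∀ c : Fin k → ℝ, (∑ a, c a ^ 2) / 4 ≤ ∫ x, ((1 + t * ζ x) * lc c u x) ^ 2 ∧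
      ∫ x, ((1 + t * ζ x) * lc c u x) ^ 2 ≤ 4 * ∑ a, c a ^ 2 := by
    intro c
    have h := HV.lc hV hu c
    have i1 := int_sq h.sob.u2
    have i2 := int_sq (hvt h).sob.u2
    rw [← hN c, ← integral_div, ← integral_const_mul]
    refine ⟨integral_mono (i1.div_const _) i2 fun x => ?_,
      integral_mono i2 (i1.const_mul _) fun x => ?_⟩
    · have := bζ x
      have h2 : 1 / 4 ≤ (1 + t * ζ x) ^ 2 := by nlinarith
      simp only [mul_pow]
      nlinarith [sq_nonneg (lc c u x)]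
    · have := bζ x
      have h2 : (1 + t * ζ x) ^ 2 ≤ 4 := by nlinarith
      simp only [mul_pow]
      nlinarith [sq_nonneg (lc c u x)]
  have key : ∀ c : Fin k → ℝ, Q Vt (lc c (fun i x => (1 + t * ζ x) * u i x))
      (lg c (fun i x => (1 + t * ζ x) • G i x + u i x • gradient (fun x => 1 + t * ζ x) x))
      ≤ (l - t * δ / 8) * ∫ x, lc c (fun i x => (1 + t * ζ x) * u i x) x ^ 2 := by
    intro c
    rw [e1, e2]
    have h := HV.lc hV hu c
    have h' := hvt h
    have i1 := int_sq h.sob.u2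
    have i2 := int_sq h'.sob.u2
    have i3 := int_nsq h.sob.G2
    have i4 := int_nsq h'.sob.G2
    have i5 := mbv_int (p := p) (l := l) hV hψ hb hζ h h
    have mono := integral_mono (isub (iadd i4 h'.int) (i2.const_mul l))
      (iadd (iadd (isub (iadd i3 h.int) (i1.const_mul l)) (i5.const_mul t))
        ((iadd (iadd i3 h.int) i1).const_mul (t * (δ / (2 * (l + 1)))))) (fun x => by
        have := hpt (ψ x) (ζ x) (V x).toReal (lc c u x) (gradient ζ x) (lg c G x) (hb x) (hζ.bd x)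
          (hζ.gbd x) ENNReal.toReal_nonneg
        simp only [eV, grad_affine hζ.sm]
        exact this)
    rw [integral_sub (iadd i4 h'.int) (i2.const_mul l), integral_add i4 h'.int,
      integral_add (iadd (isub (iadd i3 h.int) (i1.const_mul l)) (i5.const_mul t))
        ((iadd (iadd i3 h.int) i1).const_mul _),
      integral_add (isub (iadd i3 h.int) (i1.const_mul l)) (i5.const_mul t),
      integral_sub (iadd i3 h.int) (i1.const_mul l), integral_const_mul, integral_const_mul,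
      integral_const_mul, integral_const_mul, integral_add (iadd i3 h.int) i1,
      integral_add i3 h.int, hN c] at mono
    have q := hQ c
    have n1 := mul_le_mul_of_nonneg_left (hneg c) t0.le
    have n2 := mul_le_mul_of_nonneg_left (nb c).2 (show 0 ≤ t * δ / 8 by positivity)
    rw [Q] at q ⊢
    set s := ∑ a, c a ^ 2
    have n3 : t * (δ / (2 * (l + 1))) * ((∫ x, ‖lg c G x‖ ^ 2) +
        (∫ x, (V x).toReal * lc c u x ^ 2) + s) ≤ t * (δ / (2 * (l + 1))) * ((l + 1) * s) := by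
      gcongr; linarith
    have n4 : t * (δ / (2 * (l + 1))) * ((l + 1) * s) = t * δ / 2 * s := by field_simp
    linarith
  have hpos : ∀ c : Fin k → ℝ, c ≠ 0 → 0 < ∫ x, lc c (fun i x => (1 + t * ζ x) * u i x) x ^ 2 := by
    intro c hc
    rw [e1]
    exact lt_of_lt_of_le (div_pos (sumsq_pos hc) (by norm_num)) (nb c).1
  have hle := (hO.2 Vt adm).trans (lam_le hVtm (fun i => hvt (hu i)) hpos key)
  have c1 : (fun _ => 1 : Fin k → ℝ) ≠ 0 := fun h => by simpa using congrFun h ⟨0, hk⟩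
  have μ0 : 0 ≤ l - t * δ / 8 :=
    nonneg_of_mul_nonneg_left ((Q_nonneg _ _ _).trans (key _)) (hpos _ c1)
  rw [← ENNReal.ofReal_toReal hfin, ← hl, ENNReal.ofReal_le_ofReal_iff μ0] at hle
  have : 0 < t * δ / 8 := by positivity
  linarith

lemma opt_cond (hd : 0 < d) (hk : 0 < k) {p : ℝ} (hp : 0 < p) (hp1 : p ≤ 1) {V : E d → ℝ≥0∞}
    (hV : Measurable V) (hO : Optimal p k V) :
    ∃ (l : ℝ) (v : Fin k → E d → ℝ) (H : Fin k → E d → E d), 0 ≤ l ∧ (∀ j, HV V (v j) (H j)) ∧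
      0 < ∑ j, ∫ x, v j x ^ 2 ∧ ∀ (ψ ζ : E d → ℝ) (K : ℝ), Measurable ψ → (∀ x, |ψ x| ≤ K) →
        ∫ x, Wr p V x * ψ x = 0 → Mult ζ K →
        ∑ j, ∫ x, mbv p l (V x).toReal (ψ x) (ζ x) (gradient ζ x)
          (v j x) (H j x) (v j x) (H j x) = 0 := by
  obtain ⟨V0, hV0, hfin0⟩ := competitor hd hp k
  have hfin : lam k V ≠ ⊤ := (lt_of_le_of_lt (hO.2 V0 hV0) hfin0).ne
  obtain ⟨u, G, hu, hN, hQ⟩ := attain hp hp1 hV hO.1 hfin
  set l := (lam k V).toReal with hl
  have iW := Wr_int hO.1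
  obtain ⟨X, hX, hS⟩ := sep hk {q | ∃ (ψ ζ : E d → ℝ) (K : ℝ), Measurable ψ ∧ (∀ x, |ψ x| ≤ K) ∧
      ∫ x, Wr p V x * ψ x = 0 ∧ Mult ζ K ∧ q = fun c => ∫ x, mbv p l (V x).toReal (ψ x) (ζ x)
        (gradient ζ x) (lc c u x) (lg c G x) (lc c u x) (lg c G x)}
    ⟨fun _ => 0, fun _ => 0, 0, measurable_const, by simp, by simp, Mult.zero le_rfl, by
      ext c; simp [mbv]⟩
    (by
      rintro _ ⟨ψ, ζ, K, m, b, w, hζ, rfl⟩ _ ⟨ψ', ζ', K', m', b', w', hζ', rfl⟩
      refine ⟨fun x => ψ x + ψ' x, fun x => ζ x + ζ' x, K + K', m.add m',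
        fun x => (abs_add_le _ _).trans (add_le_add (b x) (b' x)), ?_, hζ.add hζ', ?_⟩
      · simp only [mul_add]
        rw [integral_add (iW.mul_bdd (c := K) m.aestronglyMeasurable (Eventually.of_forall b))
          (iW.mul_bdd (c := K') m'.aestronglyMeasurable (Eventually.of_forall b')), w, w', add_zero]
      · ext c
        have h := HV.lc hV hu c
        rw [← integral_add (mbv_int hV m b hζ h h) (mbv_int hV m' b' hζ' h h)]
        congr 1; ext x
        simp only [mbv, grad_add hζ.sm hζ'.sm, inner_add_right]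
        ring)
    (by
      rintro t _ ⟨ψ, ζ, K, m, b, w, hζ, rfl⟩
      refine ⟨fun x => t * ψ x, fun x => 0 + t * ζ x, |0| + |t| * K, measurable_const.mul m,
        fun x => ?_, ?_, hζ.affine 0 t, ?_⟩
      · rw [abs_mul, abs_zero, zero_add]
        have := b x
        gcongr
      · have : ∀ x, Wr p V x * (t * ψ x) = t * (Wr p V x * ψ x) := fun x => by ring
        simp only [this]
        rw [integral_const_mul, w, mul_zero]
      · ext c
        rw [← integral_const_mul]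
        congr 1; ext x
        simp only [mbv, grad_affine hζ.sm, real_inner_smul_right]
        ring)
    (by
      rintro _ ⟨ψ, ζ, K, m, b, w, hζ, rfl⟩
      refine ⟨fun a b' => ∫ x, mbv p l (V x).toReal (ψ x) (ζ x) (gradient ζ x)
        (u a x) (G a x) (u b' x) (G b' x), fun c => ?_⟩
      simp only [mbv_lc]
      exact qf_int c fun a b' => mbv_int hV m b hζ (hu a) (hu b'))
    (by
      rintro _ ⟨ψ, ζ, K, m, b, w, hζ, rfl⟩ δ hδ
      exact no_neg hk hp hV hO hfin hu hN hQ m b w hζ hδ)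
  refine ⟨l, fun j => lc (X j) u, fun j => lg (X j) G, ENNReal.toReal_nonneg,
    fun j => HV.lc hV hu _, by simpa only [hN] using hX, fun ψ ζ K m b w hζ => ?_⟩
  exact hS _ ⟨ψ, ζ, K, m, b, w, hζ, rfl⟩

end H884Z.OP
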