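import Pool.Agent.H884Z.OP.Defs

open MeasureTheory Filter Topology
open scoped ENNReal InnerProductSpace Convolution

namespace H884Z.OP

variable {d : ℕ}

abbrev Sm (φ : E d → ℝ) : Prop := ContDiff ℝ ((⊤ : ℕ∞) : WithTop ℕ∞) φ

structure Sob (u : E d → ℝ) (G : E d → E d) : Prop where
  u2 : MemLp u 2 volume
  G2 : MemLp G 2 volume
  wg : IsWeakGrad u G

lemma int_mul {f g : E d → ℝ} (hf : MemLp f 2 volume) (hg : MemLp g 2 volume) :
    Integrable (fun x => f x * g x) volume := hf.integrable_mul hg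

lemma int_sq {f : E d → ℝ} (hf : MemLp f 2 volume) : Integrable (fun x => f x ^ 2) volume :=
  hf.integrable_sq

lemma int_nsq {F : Type*} [NormedAddCommGroup F] {G : E d → F} (hG : MemLp G 2 volume) :
    Integrable (fun x => ‖G x‖ ^ 2) volume := hG.norm.integrable_sq

lemma int_inner {F : Type*} [NormedAddCommGroup F] [InnerProductSpace ℝ F] {G H : E d → F}
    (hG : MemLp G 2 volume) (hH : MemLp H 2 volume) :
    Integrable (fun x => ⟪G x, H x⟫_ℝ) volume := by
  refine Integrable.mono' (int_mul hG.norm hH.norm)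
    (hG.aestronglyMeasurable.inner hH.aestronglyMeasurable) (Eventually.of_forall fun x => ?_)
  exact norm_inner_le_norm _ _

lemma mem_inner_const {G : E d → E d} (hG : MemLp G 2 volume) (v : E d) :
    MemLp (fun x => ⟪G x, v⟫_ℝ) 2 volume := hG.inner_const v

lemma test_mem {φ : E d → ℝ} (h : Sm φ) (hc : HasCompactSupport φ) : MemLp φ 2 volume :=
  h.continuous.memLp_of_hasCompactSupport hc

lemma test_fderiv_mem {φ : E d → ℝ} (h : Sm φ) (hc : HasCompactSupport φ) (v : E d) :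
    MemLp (fun x => fderiv ℝ φ x v) 2 volume := by
  have h1 : Continuous (fun x => fderiv ℝ φ x v) :=
    (h.continuous_fderiv (by simp)).clm_apply continuous_const
  exact h1.memLp_of_hasCompactSupport (hc.fderiv_apply (𝕜 := ℝ) v)

lemma Sob.zero : Sob (fun _ : E d => (0 : ℝ)) (fun _ => 0) :=
  ⟨MemLp.zero, MemLp.zero, fun φ _ _ v => by simp⟩

lemma Sob.add {u w : E d → ℝ} {G H : E d → E d} (h1 : Sob u G) (h2 : Sob w H) :
    Sob (fun x => u x + w x) (fun x => G x + H x) := by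
  refine ⟨h1.u2.add h2.u2, h1.G2.add h2.G2, fun φ hφ hc v => ?_⟩
  have a1 := h1.wg φ hφ hc v
  have a2 := h2.wg φ hφ hc v
  simp only [add_mul, inner_add_left]
  rw [integral_add (int_mul h1.u2 (test_fderiv_mem hφ hc v)) (int_mul h2.u2 (test_fderiv_mem hφ hc v)),
    integral_add (int_mul (mem_inner_const h1.G2 v) (test_mem hφ hc))
      (int_mul (mem_inner_const h2.G2 v) (test_mem hφ hc)), a1, a2]
  ring

lemma Sob.smul {u : E d → ℝ} {G : E d → E d} (h1 : Sob u G) (c : ℝ) :
    Sob (fun x => c * u x) (fun x => c • G x) := by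
  refine ⟨h1.u2.const_mul c, h1.G2.const_smul c, fun φ hφ hc v => ?_⟩
  have a1 := h1.wg φ hφ hc v
  simp only [inner_smul_left, mul_assoc, integral_const_mul, a1]
  simp

lemma Sob.sub {u w : E d → ℝ} {G H : E d → E d} (h1 : Sob u G) (h2 : Sob w H) :
    Sob (fun x => u x - w x) (fun x => G x - H x) := by
  have := h1.add (h2.smul (-1))
  simpa [sub_eq_add_neg] using this

lemma Sob.sum {ι : Type*} (s : Finset ι) {u : ι → E d → ℝ} {G : ι → E d → E d}
    (h : ∀ i, Sob (u i) (G i)) (c : ι → ℝ) :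
    Sob (fun x => ∑ i ∈ s, c i * u i x) (fun x => ∑ i ∈ s, c i • G i x) := by
  classical
  induction s using Finset.induction_on with
  | empty => simpa using Sob.zero
  | insert a s ha ih =>
    simp only [Finset.sum_insert ha]
    exact ((h a).smul (c a)).add ih

/-- smooth multipliers, bounded with bounded gradient -/
structure Mult (ζ : E d → ℝ) (K : ℝ) : Prop where
  sm : Sm ζ
  bd : ∀ x, |ζ x| ≤ K
  gbd : ∀ x, ‖gradient ζ x‖ ≤ K

lemma inner_grad (ζ : E d → ℝ) (x v : E d) : ⟪gradient ζ x, v⟫_ℝ = fderiv ℝ ζ x v := by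
  simp [gradient, InnerProductSpace.toDual_symm_apply]

lemma cont_grad {ζ : E d → ℝ} (h : Sm ζ) : Continuous (gradient ζ) := by
  unfold gradient
  exact (InnerProductSpace.toDual ℝ (E d)).symm.continuous.comp (h.continuous_fderiv (by simp))

lemma mem_bdd_mul {ζ u : E d → ℝ} {K : ℝ} (hm : AEStronglyMeasurable ζ volume)
    (hb : ∀ x, |ζ x| ≤ K) (hu : MemLp u 2 volume) : MemLp (fun x => ζ x * u x) 2 volume := by
  refine MemLp.of_le (hu.const_mul K) (hm.mul hu.aestronglyMeasurable)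
    (Eventually.of_forall fun x => ?_)
  simp only [norm_mul, Real.norm_eq_abs]
  exact mul_le_mul_of_nonneg_right ((hb x).trans (le_abs_self K)) (abs_nonneg _)

lemma mem_bdd_smul {ζ : E d → ℝ} {G : E d → E d} {K : ℝ} (hm : AEStronglyMeasurable ζ volume)
    (hb : ∀ x, |ζ x| ≤ K) (hu : MemLp G 2 volume) : MemLp (fun x => ζ x • G x) 2 volume := by
  refine MemLp.of_le (hu.const_smul K) (hm.smul hu.aestronglyMeasurable)
    (Eventually.of_forall fun x => ?_)
  simp only [norm_smul, Real.norm_eq_abs, Pi.smul_apply]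
  exact mul_le_mul_of_nonneg_right ((hb x).trans (le_abs_self K)) (norm_nonneg _)

lemma mem_smul_bdd {u : E d → ℝ} {g : E d → E d} {K : ℝ} (hm : AEStronglyMeasurable g volume)
    (hb : ∀ x, ‖g x‖ ≤ K) (hu : MemLp u 2 volume) : MemLp (fun x => u x • g x) 2 volume := by
  refine MemLp.of_le (hu.const_mul K) (hu.aestronglyMeasurable.smul hm)
    (Eventually.of_forall fun x => ?_)
  simp only [norm_smul, norm_mul, Real.norm_eq_abs]
  rw [mul_comm]
  exact mul_le_mul_of_nonneg_right ((hb x).trans (le_abs_self K)) (abs_nonneg _)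

lemma Sob.mul {u : E d → ℝ} {G : E d → E d} (h : Sob u G) {ζ : E d → ℝ} {K : ℝ}
    (hζ : Mult ζ K) :
    Sob (fun x => ζ x * u x) (fun x => ζ x • G x + u x • gradient ζ x) := by
  have m1 : AEStronglyMeasurable ζ volume := hζ.sm.continuous.aestronglyMeasurable
  have m2 : AEStronglyMeasurable (gradient ζ) volume := (cont_grad hζ.sm).aestronglyMeasurable
  have b1 := mem_bdd_mul m1 hζ.bd h.u2
  have b2 := mem_bdd_smul m1 hζ.bd h.G2
  have b3 := mem_smul_bdd m2 hζ.gbd h.u2
  refine ⟨b1, b2.add b3, fun φ hφ hc v => ?_⟩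
  have a1 := h.wg (fun x => ζ x * φ x) (hζ.sm.mul hφ) (hc.mul_left) v
  have dζ : Differentiable ℝ ζ := hζ.sm.differentiable (by simp)
  have dφ : Differentiable ℝ φ := hφ.differentiable (by simp)
  have e1 : ∀ x, u x * fderiv ℝ (fun x => ζ x * φ x) x v
      = ζ x * u x * fderiv ℝ φ x v + ⟪u x • gradient ζ x, v⟫_ℝ * φ x := by
    intro x
    rw [fderiv_fun_mul (dζ x) (dφ x), inner_smul_left, inner_grad]
    simp
    ring
  simp only [e1] at a1
  rw [integral_add (int_mul b1 (test_fderiv_mem hφ hc v))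
    (int_mul (mem_inner_const b3 v) (test_mem hφ hc))] at a1
  simp only [inner_add_left, add_mul]
  rw [integral_add (int_mul (mem_inner_const b2 v) (test_mem hφ hc))
    (int_mul (mem_inner_const b3 v) (test_mem hφ hc))]
  have e2 : ∫ x, ⟪ζ x • G x, v⟫_ℝ * φ x = ∫ x, ⟪G x, v⟫_ℝ * (ζ x * φ x) := by
    congr 1; ext x; rw [inner_smul_left]; simp; ring
  rw [e2]; linarith

lemma Sob.of_test {φ : E d → ℝ} (hφ : Sm φ) (hc : HasCompactSupport φ) :
    Sob φ (gradient φ) := by
  have hg : MemLp (gradient φ) 2 volume := by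
    refine (cont_grad hφ).memLp_of_hasCompactSupport ?_
    unfold gradient
    exact (hc.fderiv ℝ).comp_left (g := fun L => (InnerProductSpace.toDual ℝ (E d)).symm L)
      (by simp)
  refine ⟨test_mem hφ hc, hg, fun ψ hψ hc' v => ?_⟩
  simp only [inner_grad]
  exact integral_mul_fderiv_eq_neg_fderiv_mul_of_integrable
    (int_mul (test_fderiv_mem hφ hc v) (test_mem hψ hc'))
    (int_mul (test_mem hφ hc) (test_fderiv_mem hψ hc' v))
    (int_mul (test_mem hφ hc) (test_mem hψ hc'))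
    (fun x _ => hφ.differentiable (by simp) x) (fun x _ => hψ.differentiable (by simp) x)

lemma mem_transl {F : Type*} [NormedAddCommGroup F] {u : E d → F} (hu : MemLp u 2 volume)
    (z : E d) : MemLp (fun x => u (x + z)) 2 volume :=
  hu.comp_measurePreserving (measurePreserving_add_right volume z)

lemma transl_test {u : E d → ℝ} {G : E d → E d} (h : Sob u G) (z : E d) {φ : E d → ℝ}
    (hφ : Sm φ) (hc : HasCompactSupport φ) :
    2 * ∫ x, (u (x + z) - u x) * φ x ≤ ‖z‖ ^ 2 * (∫ x, ‖G x‖ ^ 2) + ∫ x, φ x ^ 2 := by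
  set g : E d → ℝ := fun w => φ (-w) with hg
  have hgs : Sm g := hφ.comp contDiff_neg
  have hgc : HasCompactSupport g := hc.comp_homeomorph (Homeomorph.neg (E d))
  have hli : LocallyIntegrable u volume := h.u2.locallyIntegrable (by norm_num)
  set L : ℝ →L[ℝ] ℝ →L[ℝ] ℝ := ContinuousLinearMap.mul ℝ ℝ with hL
  set Φ : E d → ℝ := u ⋆[L, volume] g with hΦ
  set C : ℝ := (‖z‖ ^ 2 * (∫ x, ‖G x‖ ^ 2) + ∫ x, φ x ^ 2) / 2 with hC
  have hD : ∀ y, HasFDerivAt Φ ((u ⋆[L.precompR (E d), volume] fderiv ℝ g) y) y := fun y =>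
    hgc.hasFDerivAt_convolution_right L hli (hgs.of_le (by simp)) y
  have hbound : ∀ y, |(u ⋆[L.precompR (E d), volume] fderiv ℝ g) y z| ≤ C := by
    intro y
    rw [convolution_precompR_apply L hli (hgc.fderiv ℝ) (hgs.continuous_fderiv (by simp))]
    rw [convolution_def]
    have hs2 : Sm (fun x => g (y - x)) := hgs.comp (contDiff_const.sub contDiff_id)
    have hc2 : HasCompactSupport (fun x => g (y - x)) :=
      hgc.comp_homeomorph (Homeomorph.subLeft y)
    have a1 := h.wg _ hs2 hc2 z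
    have e1 : ∀ x, fderiv ℝ (fun x => g (y - x)) x z = - fderiv ℝ g (y - x) z := by
      intro x
      have := (hgs.differentiable (by simp) (y - x)).hasFDerivAt.comp x
        ((hasFDerivAt_id x).const_sub y)
      have h2 : fderiv ℝ (fun x => g (y - x)) x = _ := this.fderiv
      rw [h2]; simp
    simp only [e1, mul_neg, integral_neg, neg_inj] at a1
    simp only [hL, ContinuousLinearMap.mul_apply']
    rw [a1]
    have m2 := test_mem hs2 hc2
    have e2 : ∫ x, g (y - x) ^ 2 = ∫ x, φ x ^ 2 := by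
      simp only [hg, neg_sub]
      exact integral_sub_right_eq_self (fun x => φ x ^ 2) y
    have i1 : Integrable (fun x => (‖z‖ ^ 2 * ‖G x‖ ^ 2 + g (y - x) ^ 2) / 2) volume :=
      (((int_nsq h.G2).const_mul _).add (int_sq m2)).div_const _
    calc |∫ x, ⟪G x, z⟫_ℝ * g (y - x)| ≤ ∫ x, (‖z‖ ^ 2 * ‖G x‖ ^ 2 + g (y - x) ^ 2) / 2 := by
          rw [← Real.norm_eq_abs]
          refine norm_integral_le_of_norm_le i1 (Eventually.of_forall fun x => ?_)
          rw [norm_mul, Real.norm_eq_abs (g _)]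
          have h1 : ‖⟪G x, z⟫_ℝ‖ ≤ ‖G x‖ * ‖z‖ := norm_inner_le_norm _ _
          have h2 : ‖⟪G x, z⟫_ℝ‖ * |g (y - x)| ≤ ‖G x‖ * ‖z‖ * |g (y - x)| :=
            mul_le_mul_of_nonneg_right h1 (abs_nonneg _)
          have h3 := sq_abs (g (y - x))
          nlinarith [sq_nonneg (‖G x‖ * ‖z‖ - |g (y - x)|)]
      _ = C := by
          rw [integral_div, integral_add ((int_nsq h.G2).const_mul _) (int_sq m2),
            integral_const_mul, e2]
  have hder : ∀ t : ℝ, HasDerivAt (fun t : ℝ => Φ (t • z))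
      ((u ⋆[L.precompR (E d), volume] fderiv ℝ g) (t • z) z) t := by
    intro t
    have := (hD (t • z)).comp_hasDerivAt t ((hasDerivAt_id t).smul_const z)
    rw [one_smul] at this
    exact this
  have hmv := norm_image_sub_le_of_norm_deriv_le_segment_01'
    (f := fun t : ℝ => Φ (t • z)) (C := C)
    (fun t _ => (hder t).hasDerivWithinAt) (fun t _ => hbound _)
  simp only [one_smul, zero_smul, Real.norm_eq_abs] at hmv
  have e0 : Φ 0 = ∫ x, u x * φ x := by
    simp [hΦ, convolution_def, hL, hg]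
  have e1 : Φ z = ∫ x, u (x + z) * φ x := by
    simp only [hΦ, convolution_def, hL, hg, ContinuousLinearMap.mul_apply', neg_sub]
    rw [← integral_add_right_eq_self (fun x => u x * φ (x - z)) z]
    simp
  have e3 : ∫ x, (u (x + z) - u x) * φ x = Φ z - Φ 0 := by
    rw [e0, e1, ← integral_sub (int_mul (mem_transl h.u2 z) (test_mem hφ hc))
      (int_mul h.u2 (test_mem hφ hc))]
    congr 1; ext x; ring
  rw [e3]
  have := le_abs_self (Φ z - Φ 0)
  rw [hC] at hmv
  linarith

lemma sq_le_of_test {f : E d → ℝ} (hf : MemLp f 2 volume) {K : ℝ}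
    (h : ∀ φ : E d → ℝ, Sm φ → HasCompactSupport φ →
      2 * ∫ x, f x * φ x ≤ K + ∫ x, φ x ^ 2) : ∫ x, f x ^ 2 ≤ K := by
  set F : Lp ℝ 2 (volume : Measure (E d)) := hf.toLp f with hF
  have hd := Lp.dense_hasCompactSupport_contDiff (E := E d) (F := ℝ) (μ := volume) (p := 2)
    (by simp)
  have hcl : IsClosed {g : Lp ℝ 2 (volume : Measure (E d)) | 2 * ⟪F, g⟫_ℝ ≤ K + ⟪g, g⟫_ℝ} :=
    isClosed_le (by fun_prop) (by fun_prop)
  have hsub : {f : Lp ℝ 2 (volume : Measure (E d)) | ∃ g : E d → ℝ, f =ᵐ[volume] g ∧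
      HasCompactSupport g ∧ Sm g} ⊆
      {g : Lp ℝ 2 (volume : Measure (E d)) | 2 * ⟪F, g⟫_ℝ ≤ K + ⟪g, g⟫_ℝ} := by
    rintro g ⟨φ, e, hc, hs⟩
    have a := h φ hs hc
    have e1 : ⟪F, g⟫_ℝ = ∫ x, f x * φ x := by
      rw [L2.inner_def]
      refine integral_congr_ae ?_
      filter_upwards [e, hf.coeFn_toLp] with x h1 h2
      rw [hF, h2, h1]; simp [mul_comm]
    have e2 : ⟪g, g⟫_ℝ = ∫ x, φ x ^ 2 := by
      rw [L2.inner_def]
      refine integral_congr_ae ?_
      filter_upwards [e] with x h1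
      rw [h1]; simp [sq]
    simp only [Set.mem_ofPred_eq, e1, e2]
    exact a
  have hmem : F ∈ {g : Lp ℝ 2 (volume : Measure (E d)) | 2 * ⟪F, g⟫_ℝ ≤ K + ⟪g, g⟫_ℝ} :=
    closure_minimal hsub hcl (hd F)
  have e3 : ⟪F, F⟫_ℝ = ∫ x, f x ^ 2 := by
    rw [L2.inner_def]
    refine integral_congr_ae ?_
    filter_upwards [hf.coeFn_toLp] with x h2
    rw [hF, h2]; simp [sq]
  simp only [Set.mem_ofPred_eq, e3] at hmem
  linarith

lemma Sob.transl {u : E d → ℝ} {G : E d → E d} (h : Sob u G) (z : E d) :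
    ∫ x, (u (x + z) - u x) ^ 2 ≤ ‖z‖ ^ 2 * ∫ x, ‖G x‖ ^ 2 :=
  sq_le_of_test ((mem_transl h.u2 z).sub h.u2) fun _ hs hc => transl_test h z hs hc

end H884Z.OP
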